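import Pool.Agent.Helper81.QuasiDisj.Defs

/-!
# Quasi-disjointness from ergodic systems versus from itself

Let `G` be a group.  A `G`-system (`GSystem`) is a compact metrizable space with an action of `G` by
homeomorphisms and an invariant Borel probability measure.  The Kronecker subspace
(`kroneckerSpace`) is the closed subspace of complex `L²` spanned by the functions whose orbit has
compact closure; the Kronecker factor (`Kron`) is the factor given by the `σ`-algebra
(`kroneckerAlgebra`) of the sets whose indicator function lies in this subspace; the theorem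
`kroneckerSpace_eq` checks that this subspace is exactly `L²` of the Kronecker `σ`-algebra.

Main theorem (`result`): a `G`-system is quasi-disjoint from every ergodic `G`-system if and only if
it is quasi-disjoint from itself.

* Self implies every system (`prod_of_self`): the relatively independent self-joining of `X` over `Y`
  obtained from a joining of `X` and `Y` is again trivial on the Kronecker factors.
* Ergodic systems imply self (`prod_of_ergodic`): the Krein-Milman theorem for the set of invariant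
  measures on `X × X` with first marginal `μ` which are trivial on (Kronecker sets) `×` (all sets); the
  extreme points have ergodic second marginal.
-/

open MeasureTheory Filter Topology Set Pointwise ProbabilityTheory

namespace Pool.Agent.Helper81.QuasiDisj

noncomputable section

set_option linter.unusedSectionVars false
set_option linter.unusedVariables false

universe u v

section AP

variable {G : Type*} {H : Type*} [NormedAddCommGroup H]

/-- A vector is almost periodic for a family of self maps if its orbit has compact closure. -/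
def AP (U : G → H → H) (f : H) : Prop := IsCompact (closure (range fun g => U g f))

lemma AP_iff [CompleteSpace H] (U : G → H → H) (f : H) :
    AP U f ↔ TotallyBounded (range fun g => U g f) := by
  constructor
  · intro h
    exact h.totallyBounded.subset subset_closure
  · intro h
    exact h.closure.isCompact_of_isClosed isClosed_closure

lemma AP.map {H' : Type*} [NormedAddCommGroup H'] {U : G → H → H} {U' : G → H' → H'} {f : H}
    (h : AP U f) (Ψ : H → H') (hΨ : Continuous Ψ) (hc : ∀ g, Ψ (U g f) = U' g (Ψ f)) : AP U' (Ψ f) := by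
  have h1 : IsCompact (Ψ '' closure (range fun g => U g f)) := h.image hΨ
  refine h1.of_isClosed_subset isClosed_closure (closure_minimal ?_ h1.isClosed)
  rintro _ ⟨g, rfl⟩
  exact ⟨U g f, subset_closure ⟨g, rfl⟩, hc g⟩

lemma AP.add {U : G → H → H} {f f' : H} (hU : ∀ g, U g (f + f') = U g f + U g f')
    (h : AP U f) (h' : AP U f') : AP U (f + f') := by
  have h1 : IsCompact (closure (range fun g => U g f) + closure (range fun g => U g f')) := IsCompact.add h h'
  refine h1.of_isClosed_subset isClosed_closure (closure_minimal ?_ h1.isClosed)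
  rintro _ ⟨g, rfl⟩
  refine ⟨U g f, subset_closure ⟨g, rfl⟩, U g f', subset_closure ⟨g, rfl⟩, (hU g).symm⟩

lemma AP.isClosed [CompleteSpace H] {U : G → H → H} (hU : ∀ g, Isometry (U g)) : IsClosed {f | AP U f} := by
  rw [← isSeqClosed_iff_isClosed]
  intro f f0 hf hlim
  simp only [mem_ofPred_eq, AP_iff] at hf ⊢
  rw [Metric.totallyBounded_iff]
  intro ε hε
  obtain ⟨n, hn⟩ := ((Metric.tendsto_nhds.mp hlim) (ε / 2) (half_pos hε)).exists
  obtain ⟨t, ht, hcov⟩ := Metric.totallyBounded_iff.mp (hf n) (ε / 2) (half_pos hε)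
  refine ⟨t, ht, ?_⟩
  rintro _ ⟨g, rfl⟩
  have h1 := hcov ⟨g, rfl⟩
  simp only [mem_iUnion, Metric.mem_ball] at h1 ⊢
  obtain ⟨y, hy, hd⟩ := h1
  refine ⟨y, hy, ?_⟩
  have h2 : dist (U g f0) (U g (f n)) < ε / 2 := by
    rw [(hU g).dist_eq, dist_comm]; exact hn
  calc dist (U g f0) y ≤ dist (U g f0) (U g (f n)) + dist (U g (f n)) y := dist_triangle _ _ _
    _ < ε := by linarith

lemma AP.of_isometry {H' : Type*} [NormedAddCommGroup H'] [CompleteSpace H] [CompleteSpace H'] {U : G → H → H} {U' : G → H' → H'} {f : H}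
    (Ψ : H → H') (hΨ : Isometry Ψ) (hc : ∀ g, Ψ (U g f) = U' g (Ψ f)) : AP U' (Ψ f) ↔ AP U f := by
  refine ⟨fun h => ?_, fun h => h.map Ψ hΨ.continuous hc⟩
  rw [AP_iff] at h ⊢
  have h1 : (range fun g => U' g (Ψ f)) = Ψ '' (range fun g => U g f) := by
    rw [← range_comp]
    congr 1
    funext g
    exact (hc g).symm
  rw [h1] at h
  exact (totallyBounded_image_iff hΨ.isUniformInducing).mp h

end AP

section Koop

variable {G : Type v} [Group G] {X : Type*} [MeasurableSpace X] [MulAction G X]
  [MeasurableConstSMul G X] (μ : Measure X) [SMulInvariantMeasure G X μ]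

/-- Composition with `T^g` on `L²`. -/
def koopman (𝕜 : Type*) [RCLike 𝕜] (g : G) : Lp 𝕜 2 μ →ₗᵢ[𝕜] Lp 𝕜 2 μ :=
  Lp.compMeasurePreservingₗᵢ 𝕜 (fun x => g • x) (measurePreserving_smul g μ)

variable (G)

/-- The closed subspace of `L²(μ)` spanned by the functions `f` for which `{f ∘ T^g : g ∈ G}` has
compact closure. -/
def kroneckerSpace : Submodule ℂ (Lp ℂ 2 μ) :=
  (Submodule.span ℂ {f : Lp ℂ 2 μ | IsCompact (closure (range fun g : G => koopman μ ℂ g f))}).topologicalClosure

/-- The sets of the `σ`-algebra of the Kronecker factor: those whose indicator function belongs to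
the Kronecker subspace. -/
def IsKS [IsFiniteMeasure μ] (A : Set X) : Prop :=
  ∃ h : MeasurableSet A, indicatorConstLp 2 h (measure_ne_top μ A) (1 : ℂ) ∈ kroneckerSpace G μ

lemma orbit_eq (f : Lp ℂ 2 μ) : orbit G μ f = range fun g : G => koopman μ ℂ g f := by
  ext h
  constructor
  · rintro ⟨g, hg⟩
    refine ⟨g, ?_⟩
    apply Lp.ext
    exact (Lp.coeFn_compMeasurePreserving f (measurePreserving_smul g μ)).trans hg.symm
  · rintro ⟨g, rfl⟩
    exact ⟨g, Lp.coeFn_compMeasurePreserving f (measurePreserving_smul g μ)⟩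

lemma isKS_iff [IsFiniteMeasure μ] (A : Set X) : IsKroneckerSet G μ A ↔ IsKS G μ A := by
  unfold IsKroneckerSet apSpan
  simp only [orbit_eq]
  exact Iff.rfl

variable {G}

lemma isometry_koopman (𝕜 : Type*) [RCLike 𝕜] (g : G) : Isometry (koopman μ 𝕜 g) := (koopman μ 𝕜 g).isometry

lemma mem_kroneckerSpace (f : Lp ℂ 2 μ) : f ∈ kroneckerSpace G μ ↔ AP (fun (g : G) f => koopman μ ℂ g f) f := by
  constructor
  · intro h
    -- the almost periodic vectors form a closed subspace
    let W : Submodule ℂ (Lp ℂ 2 μ) :=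
      { carrier := {f | AP (fun (g : G) f => koopman μ ℂ g f) f}
        add_mem' := fun {a b} ha hb => AP.add (fun g => by simp only [map_add]) ha hb
        zero_mem' := by
          change AP _ _
          unfold AP
          have : (range fun g : G => koopman μ ℂ g (0 : Lp ℂ 2 μ)) = {0} := by
            ext x
            simp only [map_zero, mem_range, mem_singleton_iff, exists_const]
            exact eq_comm
          rw [this]
          simp
        smul_mem' := fun c a ha => AP.map ha (fun x => c • x) (continuous_const_smul c) (fun g => by simp only [map_smul]) }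
    have hW : IsClosed (W : Set (Lp ℂ 2 μ)) := AP.isClosed (fun g => isometry_koopman μ ℂ g)
    have h1 : kroneckerSpace G μ ≤ W := by
      refine Submodule.topologicalClosure_minimal _ ?_ hW
      rw [Submodule.span_le]
      exact fun x hx => hx
    exact h1 h
  · intro h
    exact Submodule.le_topologicalClosure _ (Submodule.subset_span h)

end Koop

section Real

variable {G : Type v} [Group G] {X : Type*} [MeasurableSpace X] [MulAction G X]
  [MeasurableConstSMul G X] (μ : Measure X) [SMulInvariantMeasure G X μ]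

/-- indicator function of a measurable set in real `L²`. -/
def ind [IsFiniteMeasure μ] {A : Set X} (h : MeasurableSet A) : Lp ℝ 2 μ :=
  indicatorConstLp 2 h (measure_ne_top μ A) (1 : ℝ)

lemma coeFn_koopman (𝕜 : Type*) [RCLike 𝕜] (g : G) (f : Lp 𝕜 2 μ) :
    (koopman μ 𝕜 g f : X → 𝕜) =ᵐ[μ] fun x => f (g • x) :=
  Lp.coeFn_compMeasurePreserving f (measurePreserving_smul g μ)

lemma koopman_ind [IsFiniteMeasure μ] (g : G) {A : Set X} (h : MeasurableSet A) :
    koopman μ ℝ g (ind μ h) = ind μ (h.preimage (measurable_const_smul g)) := rfl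

/-- The inclusion of real `L²` into complex `L²`. -/
def toC (f : Lp ℝ 2 μ) : Lp ℂ 2 μ := Complex.ofRealCLM.compLpL 2 μ f

lemma coeFn_toC (f : Lp ℝ 2 μ) : (toC μ f : X → ℂ) =ᵐ[μ] fun x => ((f x : ℝ) : ℂ) :=
  ContinuousLinearMap.coeFn_compLp _ _

lemma isometry_toC : Isometry (toC μ) := by
  have : (toC μ) = (Complex.ofRealCLM.compLpL 2 μ : Lp ℝ 2 μ → Lp ℂ 2 μ) := rfl
  rw [this]
  apply AddMonoidHomClass.isometry_of_norm
  intro f
  rw [Lp.norm_def, Lp.norm_def]
  congr 1
  apply eLpNorm_congr_norm_ae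
  filter_upwards [coeFn_toC μ f] with x hx
  have h2 : (Complex.ofRealCLM.compLpL 2 μ f : X → ℂ) x = ((f x : ℝ) : ℂ) := hx
  rw [h2, Complex.norm_real]

lemma toC_ind [IsFiniteMeasure μ] {A : Set X} (h : MeasurableSet A) :
    toC μ (ind μ h) = indicatorConstLp 2 h (measure_ne_top μ A) (1 : ℂ) := by
  apply Lp.ext
  filter_upwards [coeFn_toC μ (ind μ h), indicatorConstLp_coeFn (p := 2) (hs := h) (hμs := measure_ne_top μ A) (c := (1:ℝ)), indicatorConstLp_coeFn (p := 2) (hs := h) (hμs := measure_ne_top μ A) (c := (1:ℂ))] with x h1 h2 h3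
  rw [h1, h3]
  have h4 : (ind μ h : X → ℝ) x = A.indicator (fun _ => (1:ℝ)) x := h2
  rw [h4]
  by_cases hx : x ∈ A <;> simp [hx]

lemma toC_koopman (g : G) (f : Lp ℝ 2 μ) : toC μ (koopman μ ℝ g f) = koopman μ ℂ g (toC μ f) := by
  apply Lp.ext
  have h0 := (measurePreserving_smul g μ).quasiMeasurePreserving.ae (coeFn_toC μ f)
  filter_upwards [coeFn_toC μ (koopman μ ℝ g f), coeFn_koopman μ ℝ g f, coeFn_koopman μ ℂ g (toC μ f), h0] with x h1 h2 h3 h4
  rw [h1, h2, h3, h4]

variable (G)

/-- real almost periodicity -/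
def RAP (f : Lp ℝ 2 μ) : Prop := AP (fun (g : G) f => koopman μ ℝ g f) f

variable {G}

lemma isKroneckerSet_iff [IsFiniteMeasure μ] (A : Set X) :
    IsKS G μ A ↔ ∃ h : MeasurableSet A, RAP G μ (ind μ h) := by
  unfold IsKS
  refine exists_congr fun h => ?_
  rw [mem_kroneckerSpace, ← toC_ind μ h]
  exact AP.of_isometry (U := fun (g : G) f => koopman μ ℝ g f) (U' := fun (g : G) f => koopman μ ℂ g f) (toC μ)
    (isometry_toC μ) (fun g => toC_koopman μ g _)

lemma RAP.isClosed : IsClosed {f : Lp ℝ 2 μ | RAP G μ f} :=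
  AP.isClosed (fun g => isometry_koopman μ ℝ g)

lemma RAP.add {f f' : Lp ℝ 2 μ} (h : RAP G μ f) (h' : RAP G μ f') : RAP G μ (f + f') :=
  AP.add (fun g => by simp only [map_add]) h h'

lemma RAP.smul {f : Lp ℝ 2 μ} (c : ℝ) (h : RAP G μ f) : RAP G μ (c • f) :=
  AP.map h (fun x => c • x) (continuous_const_smul c) (fun g => by simp only [map_smul])

lemma RAP.of_fixed {f : Lp ℝ 2 μ} (h : ∀ g : G, koopman μ ℝ g f = f) : RAP G μ f := by
  unfold RAP AP
  have : (range fun g : G => koopman μ ℝ g f) = {f} := by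
    ext x
    simp only [h, mem_range, mem_singleton_iff, exists_const]
    exact eq_comm
  rw [this]
  simp

lemma RAP.comp_lipschitz {f : Lp ℝ 2 μ} (h : RAP G μ f) {c : NNReal} {φ : ℝ → ℝ} (hφ : LipschitzWith c φ)
    (h0 : φ 0 = 0) : RAP G μ (hφ.compLp h0 f) := by
  refine AP.map h (hφ.compLp h0) (hφ.continuous_compLp h0) (fun g => ?_)
  apply Lp.ext
  have h1 := (measurePreserving_smul g μ).quasiMeasurePreserving.ae (hφ.coeFn_compLp h0 f)
  filter_upwards [hφ.coeFn_compLp h0 (koopman μ ℝ g f), coeFn_koopman μ ℝ g f, coeFn_koopman μ ℝ g (hφ.compLp h0 f), h1] with x h2 h3 h4 h5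
  rw [h2, Function.comp_apply, h3, h4, h5, Function.comp_apply]

/-- truncation functions -/
def trunc (n : ℕ) (s : ℝ) : ℝ := min 1 (n * max s 0)

lemma trunc_zero (n : ℕ) : trunc n 0 = 0 := by simp [trunc]

lemma trunc_lipschitz (n : ℕ) : LipschitzWith n (trunc n) := by
  have h1 : LipschitzWith 1 fun x : ℝ => max x 0 := LipschitzWith.id.max_const _
  have h2 : LipschitzWith n fun x : ℝ => (n : ℝ) * max x 0 := by
    have h3 : LipschitzWith (n : NNReal) (fun x : ℝ => (n : ℝ) * x) := by
      refine LipschitzWith.of_dist_le_mul fun x y => ?_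
      rw [Real.dist_eq, Real.dist_eq, ← mul_sub, abs_mul]
      simp
    have := h3.comp h1
    rw [mul_one] at this
    exact this
  exact h2.const_min 1

lemma trunc_nonneg (n : ℕ) (s : ℝ) : 0 ≤ trunc n s := by
  unfold trunc
  exact le_min zero_le_one (by positivity)

lemma trunc_le_one (n : ℕ) (s : ℝ) : trunc n s ≤ 1 := min_le_left _ _

lemma trunc_tendsto (s : ℝ) : Tendsto (fun n : ℕ => trunc n s) atTop (𝓝 (if 0 < s then 1 else 0)) := by
  split_ifs with h
  · obtain ⟨N, hN⟩ := exists_nat_gt (1 / s)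
    refine tendsto_const_nhds.congr' ?_
    filter_upwards [eventually_ge_atTop N] with n hn
    have h1 : (1 : ℝ) ≤ n * s := by
      have h2 : (N : ℝ) ≤ n := by exact_mod_cast hn
      have h3 : 1 / s < n := hN.trans_le h2
      rw [div_lt_iff₀ h] at h3
      exact h3.le
    unfold trunc
    rw [max_eq_left h.le, min_eq_left h1]
  · have h1 : ∀ n : ℕ, trunc n s = 0 := by
      intro n
      unfold trunc
      rw [max_eq_right (not_lt.mp h)]
      simp
    simp only [h1]
    exact tendsto_const_nhds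

lemma pos_meas (f : Lp ℝ 2 μ) : MeasurableSet {x | 0 < (f : X → ℝ) x} :=
  measurableSet_lt measurable_const (Lp.stronglyMeasurable f).measurable

lemma RAP.pos [IsFiniteMeasure μ] {f : Lp ℝ 2 μ} (h : RAP G μ f) : RAP G μ (ind μ (pos_meas μ f)) := by
  have hlim : Tendsto (fun n : ℕ => (trunc_lipschitz n).compLp (trunc_zero n) f) atTop (𝓝 (ind μ (pos_meas μ f))) := by
    rw [tendsto_iff_norm_sub_tendsto_zero]
    have h1 : ∀ n : ℕ, ‖(trunc_lipschitz n).compLp (trunc_zero n) f - ind μ (pos_meas μ f)‖ ^ 2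
        = ∫ x, (trunc n (f x) - (if 0 < f x then 1 else 0)) ^ 2 ∂μ := by
      intro n
      rw [← real_inner_self_eq_norm_sq, MeasureTheory.L2.inner_def]
      apply integral_congr_ae
      filter_upwards [Lp.coeFn_sub ((trunc_lipschitz n).compLp (trunc_zero n) f) (ind μ (pos_meas μ f)), (trunc_lipschitz n).coeFn_compLp (trunc_zero n) f, indicatorConstLp_coeFn (p := 2) (hs := pos_meas μ f) (hμs := measure_ne_top μ _) (c := (1:ℝ))] with x hx1 hx2 hx3
      rw [hx1, Pi.sub_apply, hx2]
      have h4 : (ind μ (pos_meas μ f) : X → ℝ) x = (if 0 < f x then 1 else 0) := by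
        refine hx3.trans ?_
        rw [indicator_apply]
        rfl
      rw [h4, Function.comp_apply]
      simp only [real_inner_self_eq_norm_sq, Real.norm_eq_abs, sq_abs]
    have h2 : Tendsto (fun n : ℕ => ∫ x, (trunc n (f x) - (if 0 < f x then 1 else 0)) ^ 2 ∂μ) atTop (𝓝 (∫ x, (0 : ℝ) ∂μ)) := by
      apply tendsto_integral_of_dominated_convergence (fun _ => (1 : ℝ))
      · intro n
        refine AEStronglyMeasurable.pow ?_ 2
        refine AEStronglyMeasurable.sub ?_ ?_
        · exact ((trunc_lipschitz n).continuous.comp_aestronglyMeasurable (Lp.aestronglyMeasurable f))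
        · exact (Measurable.ite (pos_meas μ f) measurable_const measurable_const).aestronglyMeasurable
      · exact integrable_const _
      · intro n
        refine Eventually.of_forall fun x => ?_
        have h3 := trunc_nonneg n (f x)
        have h4 := trunc_le_one n (f x)
        rw [Real.norm_eq_abs, abs_of_nonneg (sq_nonneg _)]
        split_ifs <;> nlinarith
      · refine Eventually.of_forall fun x => ?_
        have h3 := (trunc_tendsto (f x)).sub_const (if 0 < f x then 1 else 0)
        rw [sub_self] at h3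
        have h4 := h3.pow 2
        simpa using h4
    rw [integral_zero] at h2
    have h3 : Tendsto (fun n : ℕ => ‖(trunc_lipschitz n).compLp (trunc_zero n) f - ind μ (pos_meas μ f)‖ ^ 2) atTop (𝓝 0) :=
      h2.congr fun n => (h1 n).symm
    have h4 := h3.sqrt
    rw [Real.sqrt_zero] at h4
    refine h4.congr fun n => ?_
    rw [Real.sqrt_sq (norm_nonneg _)]
  exact (RAP.isClosed μ).mem_of_tendsto hlim (Eventually.of_forall fun n => h.comp_lipschitz μ _ _)

lemma inner_ind [IsFiniteMeasure μ] (f : Lp ℝ 2 μ) {A : Set X} (h : MeasurableSet A) :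
    inner ℝ (ind μ h) f = ∫ x in A, f x ∂μ := by
  unfold ind
  rw [MeasureTheory.L2.inner_indicatorConstLp_one]

/-- An almost periodic function orthogonal to all Kronecker sets vanishes. -/
lemma RAP.eq_zero [IsFiniteMeasure μ] {f : Lp ℝ 2 μ} (h : RAP G μ f)
    (h0 : ∀ A, ∀ hA : MeasurableSet A, RAP G μ (ind μ hA) → inner ℝ (ind μ hA) f = 0) : f = 0 := by
  have key : ∀ f : Lp ℝ 2 μ, RAP G μ f → (∀ A, ∀ hA : MeasurableSet A, RAP G μ (ind μ hA) → inner ℝ (ind μ hA) f = 0) →
      ∀ᵐ x ∂μ, f x ≤ 0 := by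
    intro f hf hf0
    have h1 := hf0 _ (pos_meas μ f) (hf.pos μ)
    rw [inner_ind] at h1
    have hint : IntegrableOn (f : X → ℝ) {x | 0 < (f : X → ℝ) x} μ :=
      ((Lp.memLp f).integrable (by norm_num)).integrableOn
    rw [setIntegral_eq_zero_iff_of_nonneg_ae] at h1
    · rw [EventuallyEq, ae_restrict_iff' (pos_meas μ f)] at h1
      filter_upwards [h1] with x hx
      by_contra hcon
      push Not at hcon
      have := hx hcon
      simp only [Pi.zero_apply] at this
      linarith
    · rw [EventuallyLE, ae_restrict_iff' (pos_meas μ f)]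
      exact Eventually.of_forall fun x hx => le_of_lt hx
    · exact hint
  have h1 := key f h h0
  have h2 := key (-f) (by rw [← neg_one_smul ℝ f]; exact h.smul μ _) (fun A hA hAP => by rw [inner_neg_right, h0 A hA hAP, neg_zero])
  apply Lp.ext
  filter_upwards [h1, h2, Lp.coeFn_neg f, Lp.coeFn_zero ℝ 2 μ] with x hx1 hx2 hx3 hx4
  rw [hx3, Pi.neg_apply] at hx2
  rw [hx4, Pi.zero_apply]
  linarith

end Real

section Join

variable {G : Type v} [Group G] {X : Type*} [MeasurableSpace X] [MulAction G X]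
  [MeasurableConstSMul G X] {Y : Type*} [MeasurableSpace Y] [MulAction G Y]
  [MeasurableConstSMul G Y]

variable {μ : Measure X} {ν : Measure Y} {ρ : Measure (X × Y)}

lemma IsJoining.mpfst (h : IsJoining G μ ν ρ) : MeasurePreserving Prod.fst ρ μ := ⟨measurable_fst, h.fst⟩
lemma IsJoining.mpsnd (h : IsJoining G μ ν ρ) : MeasurePreserving Prod.snd ρ ν := ⟨measurable_snd, h.snd⟩

lemma measurable_smul_prod (g : G) : Measurable (fun p : X × Y => (g • p.1, g • p.2)) :=
  (measurable_fst.const_smul g).prodMk (measurable_snd.const_smul g)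

lemma IsJoining.mpsmul (h : IsJoining G μ ν ρ) (g : G) :
    MeasurePreserving (fun p : X × Y => (g • p.1, g • p.2)) ρ ρ := ⟨measurable_smul_prod g, h.inv g⟩

lemma IsJoining.isProb [IsProbabilityMeasure μ] (h : IsJoining G μ ν ρ) : IsProbabilityMeasure ρ := by
  constructor
  have h1 : μ univ = 1 := measure_univ
  rw [← h.fst, Measure.map_apply measurable_fst MeasurableSet.univ, preimage_univ] at h1
  exact h1

/-- embedding of `L²(μ)` -/
def J1 (h : IsJoining G μ ν ρ) : Lp ℝ 2 μ →ₗᵢ[ℝ] Lp ℝ 2 ρ := Lp.compMeasurePreservingₗᵢ ℝ Prod.fst h.mpfst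
/-- embedding of `L²(ν)` -/
def J2 (h : IsJoining G μ ν ρ) : Lp ℝ 2 ν →ₗᵢ[ℝ] Lp ℝ 2 ρ := Lp.compMeasurePreservingₗᵢ ℝ Prod.snd h.mpsnd
/-- the unitary operator on `L²(ρ)`. -/
def JU (h : IsJoining G μ ν ρ) (g : G) : Lp ℝ 2 ρ →ₗᵢ[ℝ] Lp ℝ 2 ρ :=
  Lp.compMeasurePreservingₗᵢ ℝ (fun p : X × Y => (g • p.1, g • p.2)) (h.mpsmul g)

lemma coeFn_J1 (h : IsJoining G μ ν ρ) (f : Lp ℝ 2 μ) : (J1 h f : X × Y → ℝ) =ᵐ[ρ] fun p => f p.1 :=
  Lp.coeFn_compMeasurePreserving f h.mpfst
lemma coeFn_J2 (h : IsJoining G μ ν ρ) (f : Lp ℝ 2 ν) : (J2 h f : X × Y → ℝ) =ᵐ[ρ] fun p => f p.2 :=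
  Lp.coeFn_compMeasurePreserving f h.mpsnd
lemma coeFn_JU (h : IsJoining G μ ν ρ) (g : G) (f : Lp ℝ 2 ρ) : (JU h g f : X × Y → ℝ) =ᵐ[ρ] fun p => f (g • p.1, g • p.2) :=
  Lp.coeFn_compMeasurePreserving f (h.mpsmul g)

variable [SMulInvariantMeasure G X μ] [SMulInvariantMeasure G Y ν]

lemma J1_koopman (h : IsJoining G μ ν ρ) (g : G) (f : Lp ℝ 2 μ) : J1 h (koopman μ ℝ g f) = JU h g (J1 h f) := by
  apply Lp.ext
  have h1 := h.mpfst.quasiMeasurePreserving.ae (coeFn_koopman μ ℝ g f)
  have h2 := (h.mpsmul g).quasiMeasurePreserving.ae (coeFn_J1 h f)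
  filter_upwards [coeFn_J1 h (koopman μ ℝ g f), coeFn_JU h g (J1 h f), h1, h2] with p h3 h4 h5 h6
  rw [h3, h4, h5, h6]

lemma J2_koopman (h : IsJoining G μ ν ρ) (g : G) (f : Lp ℝ 2 ν) : J2 h (koopman ν ℝ g f) = JU h g (J2 h f) := by
  apply Lp.ext
  have h1 := h.mpsnd.quasiMeasurePreserving.ae (coeFn_koopman ν ℝ g f)
  have h2 := (h.mpsmul g).quasiMeasurePreserving.ae (coeFn_J2 h f)
  filter_upwards [coeFn_J2 h (koopman ν ℝ g f), coeFn_JU h g (J2 h f), h1, h2] with p h3 h4 h5 h6
  rw [h3, h4, h5, h6]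

lemma JU_inv (h : IsJoining G μ ν ρ) (g : G) (f : Lp ℝ 2 ρ) : JU h g (JU h g⁻¹ f) = f := by
  apply Lp.ext
  have h1 := (h.mpsmul g).quasiMeasurePreserving.ae (coeFn_JU h g⁻¹ f)
  filter_upwards [coeFn_JU h g (JU h g⁻¹ f), h1] with p h3 h4
  rw [h3, h4]
  simp

lemma koopman_inv (g : G) (f : Lp ℝ 2 μ) : koopman μ ℝ g (koopman μ ℝ g⁻¹ f) = f := by
  apply Lp.ext
  have h1 := (measurePreserving_smul g μ).quasiMeasurePreserving.ae (coeFn_koopman μ ℝ g⁻¹ f)
  filter_upwards [coeFn_koopman μ ℝ g (koopman μ ℝ g⁻¹ f), h1] with p h3 h4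
  rw [h3, h4]
  simp

/-- The Markov operator of a joining. -/
def mrk (h : IsJoining G μ ν ρ) : Lp ℝ 2 μ →L[ℝ] Lp ℝ 2 ν :=
  ((ContinuousLinearMap.adjoint (J2 h).toContinuousLinearMap)).comp (J1 h).toContinuousLinearMap

lemma inner_mrk (h : IsJoining G μ ν ρ) (f : Lp ℝ 2 μ) (f' : Lp ℝ 2 ν) :
    inner ℝ (mrk h f) f' = inner ℝ (J1 h f) (J2 h f') := by
  unfold mrk
  rw [ContinuousLinearMap.comp_apply, ContinuousLinearMap.adjoint_inner_left]
  rfl

lemma mrk_koopman (h : IsJoining G μ ν ρ) (g : G) (f : Lp ℝ 2 μ) :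
    mrk h (koopman μ ℝ g f) = koopman ν ℝ g (mrk h f) := by
  apply ext_inner_right ℝ
  intro f'
  rw [inner_mrk, J1_koopman]
  calc inner ℝ (JU h g (J1 h f)) (J2 h f') = inner ℝ (JU h g (J1 h f)) (JU h g (JU h g⁻¹ (J2 h f'))) := by rw [JU_inv]
    _ = inner ℝ (J1 h f) (JU h g⁻¹ (J2 h f')) := (JU h g).inner_map_map _ _
    _ = inner ℝ (J1 h f) (J2 h (koopman ν ℝ g⁻¹ f')) := by rw [J2_koopman]
    _ = inner ℝ (mrk h f) (koopman ν ℝ g⁻¹ f') := by rw [inner_mrk]
    _ = inner ℝ (koopman ν ℝ g (mrk h f)) (koopman ν ℝ g (koopman ν ℝ g⁻¹ f')) := ((koopman ν ℝ g).inner_map_map _ _).symm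
    _ = inner ℝ (koopman ν ℝ g (mrk h f)) f' := by rw [koopman_inv]

lemma inner_ind_ind [IsFiniteMeasure μ] {A B : Set X} (hA : MeasurableSet A) (hB : MeasurableSet B) :
    inner ℝ (ind μ hA) (ind μ hB) = μ.real (A ∩ B) := by
  rw [inner_ind]
  have h1 : ∫ x in A, (ind μ hB : X → ℝ) x ∂μ = ∫ x in A, B.indicator (fun _ => (1:ℝ)) x ∂μ := by
    apply integral_congr_ae
    apply ae_restrict_of_ae
    exact indicatorConstLp_coeFn
  rw [h1, setIntegral_indicator hB, setIntegral_const, smul_eq_mul, mul_one]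

lemma inner_mrk_ind [IsProbabilityMeasure μ] [IsProbabilityMeasure ν] (h : IsJoining G μ ν ρ) {A : Set X} {B : Set Y}
    (hA : MeasurableSet A) (hB : MeasurableSet B) :
    inner ℝ (mrk h (ind μ hA)) (ind ν hB) = ρ.real (A ×ˢ B) := by
  have := h.isProb
  rw [inner_mrk]
  have h1 : J1 h (ind μ hA) = ind ρ (hA.preimage measurable_fst) := rfl
  have h2 : J2 h (ind ν hB) = ind ρ (hB.preimage measurable_snd) := rfl
  rw [h1, h2, inner_ind_ind]
  rfl

/-- the constant function one -/
def one (μ : Measure X) [IsFiniteMeasure μ] : Lp ℝ 2 μ := ind μ MeasurableSet.univ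

lemma koopman_one [IsFiniteMeasure μ] (g : G) : koopman μ ℝ g (one μ) = one μ := by
  unfold one
  rw [koopman_ind]
  rfl

lemma RAP_one [IsFiniteMeasure μ] : RAP G μ (one μ) := RAP.of_fixed μ (fun g => koopman_one g)

lemma inner_ind_one [IsFiniteMeasure μ] {A : Set X} (hA : MeasurableSet A) : inner ℝ (ind μ hA) (one μ) = μ.real A := by
  unfold one
  rw [inner_ind_ind, inter_univ]

/-- If a joining is trivial on the product of the Kronecker `σ`-algebras, then the Markov operator
maps indicator functions of Kronecker sets to constants. -/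
lemma mrk_kronecker [IsProbabilityMeasure μ] [IsProbabilityMeasure ν] (h : IsJoining G μ ν ρ)
    (ht : ∀ (A : Set X) (B : Set Y) (hA : MeasurableSet A) (hB : MeasurableSet B), RAP G μ (ind μ hA) → RAP G ν (ind ν hB) →
      ρ.real (A ×ˢ B) = μ.real A * ν.real B)
    {A : Set X} (hA : MeasurableSet A) (hAP : RAP G μ (ind μ hA)) :
    mrk h (ind μ hA) = μ.real A • one ν := by
  have h1 : RAP G ν (mrk h (ind μ hA) + (-(μ.real A)) • one ν) := by
    refine RAP.add ν ?_ (RAP.smul ν _ RAP_one)
    exact AP.map hAP (mrk h) (mrk h).continuous (fun g => mrk_koopman h g _)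
  have h2 := RAP.eq_zero ν h1 (by
    intro B hB hBP
    rw [inner_add_right, inner_smul_right, inner_ind_one, real_inner_comm, inner_mrk_ind, ht A B hA hB hAP hBP]
    ring)
  rw [neg_smul, add_neg_eq_zero] at h2
  exact h2

lemma joining_kronecker [IsProbabilityMeasure μ] [IsProbabilityMeasure ν] (h : IsJoining G μ ν ρ)
    (ht : ∀ (A : Set X) (B : Set Y) (hA : MeasurableSet A) (hB : MeasurableSet B), RAP G μ (ind μ hA) → RAP G ν (ind ν hB) →
      ρ.real (A ×ˢ B) = μ.real A * ν.real B)
    {A : Set X} (hA : MeasurableSet A) (hAP : RAP G μ (ind μ hA)) {B : Set Y} (hB : MeasurableSet B) :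
    ρ.real (A ×ˢ B) = μ.real A * ν.real B := by
  rw [← inner_mrk_ind h hA hB, mrk_kronecker h ht hA hAP, inner_smul_left, real_inner_comm, inner_ind_one]
  rfl

/-- The reversed joining. -/
lemma IsJoining.swap (h : IsJoining G μ ν ρ) : IsJoining G ν μ (ρ.map Prod.swap) where
  fst := by
    rw [Measure.map_map measurable_fst measurable_swap]
    exact h.snd
  snd := by
    rw [Measure.map_map measurable_snd measurable_swap]
    exact h.fst
  inv g := by
    have h1 := h.inv g
    conv_rhs => rw [← h1]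
    rw [Measure.map_map (measurable_smul_prod g) measurable_swap, Measure.map_map measurable_swap (measurable_smul_prod g)]
    rfl

/-- If a joining is trivial on Kronecker sets of `X` times arbitrary sets, then invariant sets of `Y`
are independent of `X`. -/
lemma joining_invariant [IsProbabilityMeasure μ] [IsProbabilityMeasure ν] (h : IsJoining G μ ν ρ)
    (ht : ∀ (A : Set X) (B : Set Y) (hA : MeasurableSet A) (_ : MeasurableSet B), RAP G μ (ind μ hA) →
      ρ.real (A ×ˢ B) = μ.real A * ν.real B)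
    {B : Set Y} (hB : MeasurableSet B) (hinv : ∀ g : G, (fun y => g • y) ⁻¹' B = B)
    {A : Set X} (hA : MeasurableSet A) : ρ.real (A ×ˢ B) = μ.real A * ν.real B := by
  have hswap : ∀ {A : Set X} {B : Set Y}, MeasurableSet A → MeasurableSet B → (ρ.map Prod.swap).real (B ×ˢ A) = ρ.real (A ×ˢ B) := by
    intro A B hA hB
    rw [measureReal_def, Measure.map_apply measurable_swap (hB.prod hA), measureReal_def]
    congr 2
    ext p
    simp [and_comm]
  have hfix : ∀ g : G, koopman ν ℝ g (ind ν hB) = ind ν hB := by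
    intro g
    rw [koopman_ind]
    simp only [hinv g]
  have h1 : RAP G ν (ind ν hB) := RAP.of_fixed ν hfix
  have h2 := mrk_kronecker h.swap (by
    intro A' B' hA' hB' hAP' hBP'
    rw [hswap hB' hA', ht _ _ hB' hA' hBP']
    ring) hB h1
  have h3 := inner_mrk_ind h.swap hB hA
  rw [h2, inner_smul_left, real_inner_comm, inner_ind_one, hswap hA hB] at h3
  rw [← h3]
  simp only [conj_trivial]
  ring

end Join

section Self

variable {G : Type v} [Group G] {X : Type*} [MeasurableSpace X] [MulAction G X]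
  [MeasurableConstSMul G X] {Y : Type*} [MeasurableSpace Y] [MulAction G Y]
  [MeasurableConstSMul G Y] {μ : Measure X} {ν : Measure Y} {ρ : Measure (X × Y)}
  [SMulInvariantMeasure G X μ] [SMulInvariantMeasure G Y ν]
  [IsProbabilityMeasure μ] [IsProbabilityMeasure ν]

variable [StandardBorelSpace X] [Nonempty X]

/-- The conditional distributions of `x` given `y`. -/
def cdk (ρ : Measure (X × Y)) [IsFiniteMeasure ρ] : Kernel Y X := (ρ.map Prod.swap).condKernel

lemma mrk_ind_eq (h : IsJoining G μ ν ρ) [IsFiniteMeasure ρ] {A : Set X} (hA : MeasurableSet A) :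
    (mrk h (ind μ hA) : Y → ℝ) =ᵐ[ν] fun y => (cdk ρ y).real A := by
  have hmarkov : IsMarkovKernel (cdk ρ) := by unfold cdk; infer_instance
  have hmeas : Measurable fun y => (cdk ρ y).real A := ((cdk ρ).measurable_coe hA).ennreal_toReal
  have hfst : (ρ.map Prod.swap).fst = ν := by
    rw [Measure.fst, Measure.map_map measurable_fst measurable_swap]
    exact h.snd
  have hdis : ν ⊗ₘ (cdk ρ) = ρ.map Prod.swap := by
    have h0 : (ρ.map Prod.swap).fst ⊗ₘ (ρ.map Prod.swap).condKernel = ρ.map Prod.swap :=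
      (ρ.map Prod.swap).disintegrate _
    rw [hfst] at h0
    unfold cdk
    exact h0
  have hint : Integrable (fun y => (cdk ρ y).real A) ν := by
    refine Integrable.of_bound hmeas.aestronglyMeasurable 1 (Eventually.of_forall fun y => ?_)
    rw [Real.norm_eq_abs, abs_of_nonneg measureReal_nonneg]
    exact measureReal_le_one
  apply Integrable.ae_eq_of_forall_setIntegral_eq _ _ ((Lp.memLp _).integrable (by norm_num)) hint
  intro B hB _
  rw [← inner_ind ν _ hB, real_inner_comm, inner_mrk_ind]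
  rw [measureReal_def]
  have h1 : ρ (A ×ˢ B) = ∫⁻ y in B, cdk ρ y A ∂ν := by
    have h2 : ρ (A ×ˢ B) = (ρ.map Prod.swap) (B ×ˢ A) := by
      rw [Measure.map_apply measurable_swap (hB.prod hA)]
      congr 1
      ext p
      simp [and_comm]
    rw [h2, ← hdis, Measure.compProd_apply_prod hB hA]
  rw [h1]
  rw [integral_eq_lintegral_of_nonneg_ae]
  · congr 1
    apply lintegral_congr
    intro y
    rw [measureReal_def, ENNReal.ofReal_toReal (measure_ne_top _ _)]
  · exact Eventually.of_forall fun y => measureReal_nonneg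
  · exact hmeas.aestronglyMeasurable

/-- The relatively independent self-joining of `X` over `Y`. -/
def relProd (ν : Measure Y) (ρ : Measure (X × Y)) [IsFiniteMeasure ρ] : Measure (X × X) :=
  ((cdk ρ) ×ₖ (cdk ρ)) ∘ₘ ν

lemma relProd_apply (ν : Measure Y) [IsProbabilityMeasure ν] (ρ : Measure (X × Y)) [IsFiniteMeasure ρ] {A B : Set X}
    (hA : MeasurableSet A) (hB : MeasurableSet B) :
    relProd ν ρ (A ×ˢ B) = ∫⁻ y, cdk ρ y A * cdk ρ y B ∂ν := by
  have hmarkov : IsMarkovKernel (cdk ρ) := by unfold cdk; infer_instance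
  unfold relProd
  rw [Measure.bind_apply (hA.prod hB) (Kernel.aemeasurable _)]
  apply lintegral_congr
  intro y
  rw [Kernel.prod_apply, Measure.prod_prod]

lemma relProd_real (h : IsJoining G μ ν ρ) [IsFiniteMeasure ρ] {A B : Set X}
    (hA : MeasurableSet A) (hB : MeasurableSet B) :
    (relProd ν ρ).real (A ×ˢ B) = inner ℝ (mrk h (ind μ hA)) (mrk h (ind μ hB)) := by
  have hmarkov : IsMarkovKernel (cdk ρ) := by unfold cdk; infer_instance
  rw [MeasureTheory.L2.inner_def, measureReal_def, relProd_apply ν ρ hA hB]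
  have h1 : ∫ y, inner ℝ ((mrk h (ind μ hA) : Y → ℝ) y) ((mrk h (ind μ hB) : Y → ℝ) y) ∂ν 
      = ∫ y, (cdk ρ y).real A * (cdk ρ y).real B ∂ν := by
    apply integral_congr_ae
    filter_upwards [mrk_ind_eq h hA, mrk_ind_eq h hB] with y h1 h2
    rw [h1, h2]
    simp [mul_comm]
  rw [h1, integral_eq_lintegral_of_nonneg_ae]
  · congr 1
    apply lintegral_congr
    intro y
    rw [measureReal_def, measureReal_def, ← ENNReal.toReal_mul, ENNReal.ofReal_toReal]
    exact ENNReal.mul_ne_top (measure_ne_top _ _) (measure_ne_top _ _)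
  · exact Eventually.of_forall fun y => mul_nonneg measureReal_nonneg measureReal_nonneg
  · exact (((cdk ρ).measurable_coe hA).ennreal_toReal.mul ((cdk ρ).measurable_coe hB).ennreal_toReal).aestronglyMeasurable

lemma mrk_univ (h : IsJoining G μ ν ρ) : mrk h (one μ) = one ν := by
  have hfin : IsFiniteMeasure ρ := by have := h.isProb; infer_instance
  have hmarkov : IsMarkovKernel (cdk ρ) := by unfold cdk; infer_instance
  apply Lp.ext
  have h1 := mrk_ind_eq h (MeasurableSet.univ : MeasurableSet (univ : Set X))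
  have h2 : (one ν : Y → ℝ) =ᵐ[ν] (univ : Set Y).indicator (fun _ => (1:ℝ)) :=
    indicatorConstLp_coeFn (p := 2) (hs := MeasurableSet.univ) (hμs := measure_ne_top ν _) (c := (1:ℝ))
  filter_upwards [h1, h2] with y hy1 hy2
  rw [hy2]
  unfold one
  rw [hy1]
  simp

/-- **Self quasi-disjointness implies quasi-disjointness from every system.** -/
theorem prod_of_self (h : IsJoining G μ ν ρ)
    (hself : ∀ σ : Measure (X × X), IsJoining G μ μ σ →
      (∀ (A B : Set X) (hA : MeasurableSet A) (hB : MeasurableSet B), RAP G μ (ind μ hA) → RAP G μ (ind μ hB) →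
        σ.real (A ×ˢ B) = μ.real A * μ.real B) → σ = μ.prod μ)
    (ht : ∀ (A : Set X) (B : Set Y) (hA : MeasurableSet A) (hB : MeasurableSet B), RAP G μ (ind μ hA) → RAP G ν (ind ν hB) →
      ρ.real (A ×ˢ B) = μ.real A * ν.real B) : ρ = μ.prod ν := by
  have hprob := h.isProb
  have hmarkov : IsMarkovKernel (cdk ρ) := by unfold cdk; infer_instance
  have hfin' : IsProbabilityMeasure (relProd ν ρ) := by unfold relProd; infer_instance
  -- the relatively independent joining is a joining
  have hj : IsJoining G μ μ (relProd ν ρ) := by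
    refine ⟨?_, ?_, ?_⟩
    · ext A hA
      rw [Measure.map_apply measurable_fst hA]
      have h1 : Prod.fst ⁻¹' A = A ×ˢ (univ : Set X) := by ext; simp
      rw [h1]
      have h2 := relProd_real h hA (MeasurableSet.univ)
      have h3 : inner ℝ (mrk h (ind μ hA)) (mrk h (ind μ MeasurableSet.univ)) = μ.real A := by
        have h4 : mrk h (ind μ MeasurableSet.univ) = one ν := mrk_univ h
        rw [h4]
        unfold one
        rw [inner_mrk_ind]
        have h5 := h.mpfst.measure_preimage hA.nullMeasurableSet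
        rw [measureReal_def, measureReal_def, ← h5]
        congr 2
        ext p; simp
      rw [h3] at h2
      exact (measureReal_eq_measureReal_iff).mp h2
    · ext A hA
      rw [Measure.map_apply measurable_snd hA]
      have h1 : Prod.snd ⁻¹' A = (univ : Set X) ×ˢ A := by ext; simp
      rw [h1]
      have h2 := relProd_real h (MeasurableSet.univ) hA
      have h3 : inner ℝ (mrk h (ind μ MeasurableSet.univ)) (mrk h (ind μ hA)) = μ.real A := by
        have h4 : mrk h (ind μ MeasurableSet.univ) = one ν := mrk_univ h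
        rw [h4, real_inner_comm]
        unfold one
        rw [inner_mrk_ind]
        have h5 := h.mpfst.measure_preimage hA.nullMeasurableSet
        rw [measureReal_def, measureReal_def, ← h5]
        congr 2
        ext p; simp
      rw [h3] at h2
      exact (measureReal_eq_measureReal_iff).mp h2
    · intro g
      have hp : IsProbabilityMeasure ((relProd ν ρ).map (fun p : X × X => (g • p.1, g • p.2))) :=
        Measure.isProbabilityMeasure_map (measurable_smul_prod g).aemeasurable
      refine ext_of_generate_finite _ generateFrom_prod.symm isPiSystem_prod ?_ ?_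
      · rintro _ ⟨A, hA, B, hB, rfl⟩
        rw [mem_ofPred_eq] at hA hB
        rw [Measure.map_apply (measurable_smul_prod g) (hA.prod hB)]
        have h1 : (fun p : X × X => (g • p.1, g • p.2)) ⁻¹' (A ×ˢ B) = ((fun x => g • x) ⁻¹' A) ×ˢ ((fun x => g • x) ⁻¹' B) := by
          ext p; simp
        rw [h1]
        apply (measureReal_eq_measureReal_iff).mp
        rw [relProd_real h (hA.preimage (measurable_const_smul g)) (hB.preimage (measurable_const_smul g)), relProd_real h hA hB]
        rw [← koopman_ind, ← koopman_ind, mrk_koopman, mrk_koopman, LinearIsometry.inner_map_map]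
      · simp
  have h1 := hself _ hj (by
    intro A B hA hB hAP hBP
    rw [relProd_real h hA hB, mrk_kronecker h ht hA hAP, mrk_kronecker h ht hB hBP, inner_smul_left, inner_smul_right]
    have : inner ℝ (one ν) (one ν) = (1 : ℝ) := by
      unfold one
      rw [inner_ind_ind]
      simp
    rw [this]
    simp)
  -- the Markov operator is trivial
  have h2 : ∀ (A : Set X) (hA : MeasurableSet A), mrk h (ind μ hA) = μ.real A • one ν := by
    intro A hA
    have h3 : inner ℝ (mrk h (ind μ hA)) (mrk h (ind μ hA)) = μ.real A * μ.real A := by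
      rw [← relProd_real h hA hA, h1, measureReal_def, Measure.prod_prod, ENNReal.toReal_mul]
      rfl
    have h4 : inner ℝ (mrk h (ind μ hA)) (one ν) = μ.real A := by
      unfold one
      rw [inner_mrk_ind]
      have h5 := h.mpfst.measure_preimage hA.nullMeasurableSet
      rw [measureReal_def, measureReal_def, ← h5]
      congr 2
      ext p; simp
    have h5 : inner ℝ (one ν) (one ν) = (1 : ℝ) := by
      unfold one
      rw [inner_ind_ind]
      simp
    rw [← sub_eq_zero, ← inner_self_eq_zero (𝕜 := ℝ)]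
    rw [inner_sub_left, inner_sub_right, inner_sub_right, h3, inner_smul_left, inner_smul_right, inner_smul_left, inner_smul_right, h5, h4, real_inner_comm, h4]
    simp
  symm
  apply Measure.prod_eq
  intro A B hA hB
  apply (ENNReal.toReal_eq_toReal_iff' (measure_ne_top _ _) (ENNReal.mul_ne_top (measure_ne_top _ _) (measure_ne_top _ _))).mp
  have h6 := inner_mrk_ind h hA hB
  rw [h2 A hA, inner_smul_left, real_inner_comm, inner_ind_one] at h6
  rw [ENNReal.toReal_mul]
  exact h6.symm

end Self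

lemma polish_of_compact_metrizable (X : Type*) [TopologicalSpace X] [CompactSpace X]
    [TopologicalSpace.MetrizableSpace X] : PolishSpace X := by
  let _ := TopologicalSpace.metrizableSpaceMetric X
  infer_instance

section Mix

variable {Z : Type*} [MeasurableSpace Z]

/-- convex combination of measures -/
def mix (a b : ℝ) (ρ₁ ρ₂ : Measure Z) : Measure Z := ENNReal.ofReal a • ρ₁ + ENNReal.ofReal b • ρ₂

lemma mix_apply (a b : ℝ) (ρ₁ ρ₂ : Measure Z) (A : Set Z) :
    mix a b ρ₁ ρ₂ A = ENNReal.ofReal a * ρ₁ A + ENNReal.ofReal b * ρ₂ A := by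
  simp [mix]

lemma mix_prob {a b : ℝ} (ha : 0 ≤ a) (hb : 0 ≤ b) (hab : a + b = 1) (ρ₁ ρ₂ : Measure Z) [IsProbabilityMeasure ρ₁]
    [IsProbabilityMeasure ρ₂] : IsProbabilityMeasure (mix a b ρ₁ ρ₂) := by
  constructor
  rw [mix_apply, measure_univ, measure_univ, mul_one, mul_one, ← ENNReal.ofReal_add ha hb, hab, ENNReal.ofReal_one]

lemma mix_real {a b : ℝ} (ha : 0 ≤ a) (hb : 0 ≤ b) (ρ₁ ρ₂ : Measure Z) [IsProbabilityMeasure ρ₁]
    [IsProbabilityMeasure ρ₂] (A : Set Z) : (mix a b ρ₁ ρ₂).real A = a * ρ₁.real A + b * ρ₂.real A := by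
  rw [measureReal_def, mix_apply, ENNReal.toReal_add (by finiteness) (by finiteness), ENNReal.toReal_mul,
    ENNReal.toReal_mul, ENNReal.toReal_ofReal ha, ENNReal.toReal_ofReal hb]
  rfl

lemma mix_map {a b : ℝ} {Z' : Type*} [MeasurableSpace Z'] (ρ₁ ρ₂ : Measure Z) {f : Z → Z'} (hf : Measurable f) :
    (mix a b ρ₁ ρ₂).map f = mix a b (ρ₁.map f) (ρ₂.map f) := by
  unfold mix
  rw [Measure.map_add _ _ hf, Measure.map_smul, Measure.map_smul]

lemma mix_self {a b : ℝ} (ha : 0 ≤ a) (hb : 0 ≤ b) (hab : a + b = 1) (ρ : Measure Z) : mix a b ρ ρ = ρ := by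
  unfold mix
  rw [← add_smul, ← ENNReal.ofReal_add ha hb, hab, ENNReal.ofReal_one, one_smul]

lemma mix_integral {a b : ℝ} (ha : 0 ≤ a) (hb : 0 ≤ b) (ρ₁ ρ₂ : Measure Z) {f : Z → ℝ} (h1 : Integrable f ρ₁)
    (h2 : Integrable f ρ₂) : ∫ z, f z ∂(mix a b ρ₁ ρ₂) = a * ∫ z, f z ∂ρ₁ + b * ∫ z, f z ∂ρ₂ := by
  unfold mix
  rw [integral_add_measure (h1.smul_measure ENNReal.ofReal_ne_top) (h2.smul_measure ENNReal.ofReal_ne_top),
    integral_smul_measure, integral_smul_measure, ENNReal.toReal_ofReal ha, ENNReal.toReal_ofReal hb]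
  rfl

end Mix

section KM

variable {Z : Type*} [TopologicalSpace Z] [CompactSpace Z] [TopologicalSpace.MetrizableSpace Z]
  [MeasurableSpace Z] [BorelSpace Z]

lemma integrable_cont (f : C(Z, ℝ)) (ρ : Measure Z) [IsFiniteMeasure ρ] : Integrable f ρ :=
  f.continuous.integrable_of_hasCompactSupport (HasCompactSupport.of_compactSpace _)

/-- evaluation map into a locally convex space -/
def Th (ρ : ProbabilityMeasure Z) : C(Z, ℝ) → ℝ := fun f => ∫ z, f z ∂(ρ : Measure Z)

lemma Th_cont : Continuous (Th : ProbabilityMeasure Z → C(Z, ℝ) → ℝ) :=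
  continuous_pi fun f => ProbabilityMeasure.continuous_integral_continuousMap f

lemma Th_inj : Function.Injective (Th : ProbabilityMeasure Z → C(Z, ℝ) → ℝ) := by
  intro ρ₁ ρ₂ h
  apply Subtype.ext
  have i1 : IsProbabilityMeasure ρ₁.1 := ρ₁.2
  have i2 : IsProbabilityMeasure ρ₂.1 := ρ₂.2
  apply ext_of_forall_integral_eq_of_IsFiniteMeasure
  intro f
  exact congrFun h f.toContinuousMap

end KM

section Erg

variable {G : Type v} [Group G] {X : Type*} [TopologicalSpace X] [CompactSpace X]
  [TopologicalSpace.MetrizableSpace X] [MeasurableSpace X] [BorelSpace X] [MulAction G X]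
  [ContinuousConstSMul G X] {μ : Measure X} [SMulInvariantMeasure G X μ] [IsProbabilityMeasure μ]

variable (G)

/-- The set of measures used for the Krein-Milman argument. -/
def JJ (μ : Measure X) [SMulInvariantMeasure G X μ] [IsProbabilityMeasure μ] : Set (ProbabilityMeasure (X × X)) :=
  {ρ | (ρ : Measure (X × X)).map Prod.fst = μ ∧
    (∀ g : G, (ρ : Measure (X × X)).map (fun p => (g • p.1, g • p.2)) = ρ) ∧
    ∀ (A : Set X) (B : Set X) (hA : MeasurableSet A) (_ : MeasurableSet B), RAP G μ (ind μ hA) →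
      (ρ : Measure (X × X)).real (A ×ˢ B) = μ.real A * (ρ : Measure (X × X)).real (univ ×ˢ B)}

variable {G}

lemma third_iff (ρ : Measure (X × X)) [IsProbabilityMeasure ρ] {A : Set X} (hA : MeasurableSet A) :
    (∀ B : Set X, MeasurableSet B → ρ.real (A ×ˢ B) = μ.real A * ρ.real (univ ×ˢ B)) ↔
    ∀ f : C(X, ℝ), ∫ p in A ×ˢ univ, f p.2 ∂ρ = μ.real A * ∫ p, f p.2 ∂ρ := by
  -- compare two finite measures on `X`
  set m : Measure X := (ρ.restrict (A ×ˢ univ)).map Prod.snd with hm
  set n : Measure X := (μ A) • ρ.map Prod.snd with hn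
  have hmfin : IsFiniteMeasure m := by rw [hm]; infer_instance
  have hnfin : IsFiniteMeasure n := by
    rw [hn]
    exact (ρ.map Prod.snd).smul_finite (measure_ne_top μ A)
  have hmB : ∀ B : Set X, MeasurableSet B → m B = ρ (A ×ˢ B) := by
    intro B hB
    rw [hm, Measure.map_apply measurable_snd hB, Measure.restrict_apply (hB.preimage measurable_snd)]
    congr 1
    ext p; simp [and_comm]
  have hnB : ∀ B : Set X, MeasurableSet B → n B = μ A * ρ (univ ×ˢ B) := by
    intro B hB
    rw [hn, Measure.smul_apply, Measure.map_apply measurable_snd hB, smul_eq_mul]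
    congr 2
    ext p; simp
  have hmf : ∀ f : C(X, ℝ), ∫ x, f x ∂m = ∫ p in A ×ˢ univ, f p.2 ∂ρ := by
    intro f
    rw [hm, integral_map measurable_snd.aemeasurable f.continuous.aestronglyMeasurable]
  have hnf : ∀ f : C(X, ℝ), ∫ x, f x ∂n = μ.real A * ∫ p, f p.2 ∂ρ := by
    intro f
    rw [hn, integral_smul_measure, integral_map measurable_snd.aemeasurable f.continuous.aestronglyMeasurable]
    rfl
  have h1 : (∀ B : Set X, MeasurableSet B → ρ.real (A ×ˢ B) = μ.real A * ρ.real (univ ×ˢ B)) ↔ m = n := by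
    constructor
    · intro h
      ext B hB
      rw [hmB B hB, hnB B hB]
      have := h B hB
      rw [measureReal_def, measureReal_def, measureReal_def, ← ENNReal.toReal_mul] at this
      exact (ENNReal.toReal_eq_toReal_iff' (measure_ne_top _ _) (ENNReal.mul_ne_top (measure_ne_top _ _) (measure_ne_top _ _))).mp this
    · intro h B hB
      rw [measureReal_def, measureReal_def, measureReal_def, ← ENNReal.toReal_mul, ← hmB B hB, ← hnB B hB, h]
  rw [h1]
  constructor
  · intro h f
    rw [← hmf, ← hnf, h]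
  · intro h
    apply ext_of_forall_integral_eq_of_IsFiniteMeasure
    intro f
    have := h f.toContinuousMap
    rw [← hmf, ← hnf] at this
    exact this

lemma JJ_closed : IsClosed (JJ G μ) := by
  apply isClosed_of_closure_subset
  intro ρ hρ
  -- first condition
  have hcl1 : IsClosed {ρ : ProbabilityMeasure (X × X) | (ρ : Measure (X × X)).map Prod.fst = μ} := by
    have h1 : {ρ : ProbabilityMeasure (X × X) | (ρ : Measure (X × X)).map Prod.fst = μ}
        = (fun ρ : ProbabilityMeasure (X × X) => ρ.map (continuous_fst.measurable.aemeasurable)) ⁻¹' {(⟨μ, inferInstance⟩ : ProbabilityMeasure X)} := by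
      ext ρ
      simp only [mem_ofPred_eq, mem_preimage, mem_singleton_iff]
      constructor
      · intro h; apply Subtype.ext; exact h
      · intro h; exact congrArg Subtype.val h
    rw [h1]
    exact isClosed_singleton.preimage (ProbabilityMeasure.continuous_map continuous_fst)
  have hfst : (ρ : Measure (X × X)).map Prod.fst = μ := closure_minimal (fun σ hσ => hσ.1) hcl1 hρ
  refine ⟨hfst, ?_, ?_⟩
  · intro g
    have hc : Continuous (fun p : X × X => (g • p.1, g • p.2)) :=
      (continuous_fst.const_smul g).prodMk (continuous_snd.const_smul g)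
    have hcl2 : IsClosed {ρ : ProbabilityMeasure (X × X) | ρ.map hc.measurable.aemeasurable = ρ} :=
      isClosed_eq (ProbabilityMeasure.continuous_map hc) continuous_id
    have := closure_minimal (fun σ (hσ : σ ∈ JJ G μ) => (show σ ∈ {ρ : ProbabilityMeasure (X × X) | ρ.map hc.measurable.aemeasurable = ρ} from Subtype.ext (hσ.2.1 g))) hcl2 hρ
    exact congrArg Subtype.val this
  · intro A B hA hB hAP
    refine (third_iff (μ := μ) (ρ : Measure (X × X)) hA).mpr ?_ B hB
    intro f
    -- bound for `f`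
    obtain ⟨C, hC0, hC⟩ : ∃ C : ℝ, 0 ≤ C ∧ ∀ x, |f x| ≤ C := ⟨‖f‖, norm_nonneg _, fun x => f.norm_coe_le_norm x⟩
    have hindint : Integrable (A.indicator (fun _ => (1:ℝ))) μ := (integrable_const _).indicator hA
    have key : ∀ ε : ℝ, 0 < ε → |∫ p in A ×ˢ univ, f p.2 ∂(ρ : Measure (X × X)) - μ.real A * ∫ p, f p.2 ∂(ρ : Measure (X × X))| ≤ 2 * (C * ε) := by
      intro ε hε
      obtain ⟨φ, hφ1, hφ2⟩ := hindint.exists_boundedContinuous_integral_sub_le hε
      -- the difference of the two functionals for measures with first marginal `μ`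
      have hdiff : ∀ σ : ProbabilityMeasure (X × X), (σ : Measure (X × X)).map Prod.fst = μ →
          |∫ p in A ×ˢ univ, f p.2 ∂(σ : Measure (X × X)) - ∫ p, φ p.1 * f p.2 ∂(σ : Measure (X × X))| ≤ C * ε := by
        intro σ hσ
        have e1 : ∫ p in A ×ˢ univ, f p.2 ∂(σ : Measure (X × X)) = ∫ p, A.indicator (fun _ => (1:ℝ)) p.1 * f p.2 ∂(σ : Measure (X × X)) := by
          rw [← integral_indicator (hA.prod MeasurableSet.univ)]
          congr 1
          funext p
          by_cases hp : p.1 ∈ A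
          · rw [indicator_of_mem (show p ∈ A ×ˢ (univ : Set X) from ⟨hp, mem_univ _⟩), indicator_of_mem hp, one_mul]
          · rw [indicator_of_notMem (show p ∉ A ×ˢ (univ : Set X) from fun h => hp h.1), indicator_of_notMem hp, zero_mul]
        have i1 : Integrable (fun p : X × X => A.indicator (fun _ => (1:ℝ)) p.1 * f p.2) (σ : Measure (X × X)) := by
          refine Integrable.mul_bdd (c := C) ?_ ?_ ?_
          · rw [← hσ] at hindint
            exact hindint.comp_measurable measurable_fst
          · exact (f.continuous.comp continuous_snd).aestronglyMeasurable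
          · exact Eventually.of_forall fun p => hC p.2
        have i2 : Integrable (fun p : X × X => φ p.1 * f p.2) (σ : Measure (X × X)) :=
          integrable_cont ⟨fun p : X × X => φ p.1 * f p.2, (φ.continuous.comp continuous_fst).mul (f.continuous.comp continuous_snd)⟩ _
        rw [e1, ← integral_sub i1 i2]
        have hmp : MeasurePreserving Prod.fst (σ : Measure (X × X)) μ := ⟨measurable_fst, hσ⟩
        calc |∫ p, (A.indicator (fun _ => (1:ℝ)) p.1 * f p.2 - φ p.1 * f p.2) ∂(σ : Measure (X × X))|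
            ≤ ∫ p, |A.indicator (fun _ => (1:ℝ)) p.1 * f p.2 - φ p.1 * f p.2| ∂(σ : Measure (X × X)) := abs_integral_le_integral_abs
          _ ≤ ∫ p, C * ‖A.indicator (fun _ => (1:ℝ)) p.1 - φ p.1‖ ∂(σ : Measure (X × X)) := by
              apply integral_mono_of_nonneg (Eventually.of_forall fun p => abs_nonneg _)
              · have : Integrable (fun x => ‖A.indicator (fun _ => (1:ℝ)) x - φ x‖) μ := (hindint.sub hφ2).norm
                rw [← hσ] at this
                exact (this.comp_measurable measurable_fst).const_mul C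
              · refine Eventually.of_forall fun p => ?_
                change |A.indicator (fun _ => (1:ℝ)) p.1 * f p.2 - φ p.1 * f p.2| ≤ C * ‖A.indicator (fun _ => (1:ℝ)) p.1 - φ p.1‖
                rw [← sub_mul, abs_mul, mul_comm, Real.norm_eq_abs]
                gcongr
                exact hC p.2
          _ = C * ∫ x, ‖A.indicator (fun _ => (1:ℝ)) x - φ x‖ ∂μ := by
              rw [integral_const_mul]
              congr 1
              have h5 : AEStronglyMeasurable (fun x => ‖A.indicator (fun _ => (1:ℝ)) x - φ x‖) ((σ : Measure (X × X)).map Prod.fst) := by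
                rw [hσ]; exact (hindint.sub hφ2).norm.aestronglyMeasurable
              rw [← hσ, integral_map measurable_fst.aemeasurable h5]
          _ ≤ C * ε := by gcongr
      -- the closed condition
      have hcl3 : IsClosed {σ : ProbabilityMeasure (X × X) | |∫ p, φ p.1 * f p.2 ∂(σ : Measure (X × X)) - μ.real A * ∫ p, f p.2 ∂(σ : Measure (X × X))| ≤ C * ε} := by
        refine isClosed_le ?_ continuous_const
        refine continuous_abs.comp (Continuous.sub ?_ (continuous_const.mul ?_))
        · exact ProbabilityMeasure.continuous_integral_continuousMap (⟨fun p : X × X => φ p.1 * f p.2, (φ.continuous.comp continuous_fst).mul (f.continuous.comp continuous_snd)⟩ : C(X × X, ℝ))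
        · exact ProbabilityMeasure.continuous_integral_continuousMap (⟨fun p : X × X => f p.2, f.continuous.comp continuous_snd⟩ : C(X × X, ℝ))
      have hρ3 := closure_minimal (s := JJ G μ) (fun σ hσ => by
        have h1 := hdiff σ hσ.1
        have h2 := (third_iff (μ := μ) (σ : Measure (X × X)) hA).mp (fun B hB => hσ.2.2 A B hA hB hAP) f
        rw [h2, abs_sub_comm] at h1
        exact h1) hcl3 hρ
      have h4 := hdiff ρ hfst
      rw [mem_ofPred_eq] at hρ3
      calc |∫ p in A ×ˢ univ, f p.2 ∂(ρ : Measure (X × X)) - μ.real A * ∫ p, f p.2 ∂(ρ : Measure (X × X))|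
          ≤ |∫ p in A ×ˢ univ, f p.2 ∂(ρ : Measure (X × X)) - ∫ p, φ p.1 * f p.2 ∂(ρ : Measure (X × X))| + |∫ p, φ p.1 * f p.2 ∂(ρ : Measure (X × X)) - μ.real A * ∫ p, f p.2 ∂(ρ : Measure (X × X))| := abs_sub_le _ _ _
        _ ≤ 2 * (C * ε) := by linarith
    have h6 : |∫ p in A ×ˢ univ, f p.2 ∂(ρ : Measure (X × X)) - μ.real A * ∫ p, f p.2 ∂(ρ : Measure (X × X))| ≤ 0 := by
      refine le_of_forall_pos_le_add fun δ hδ => ?_
      rw [zero_add]
      refine (key (δ / (2 * (C + 1))) (by positivity)).trans ?_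
      have : 2 * (C * (δ / (2 * (C + 1)))) = δ * (C / (C + 1)) := by field_simp
      rw [this]
      have : C / (C + 1) ≤ 1 := by rw [div_le_one (by positivity)]; linarith
      nlinarith
    have h7 := abs_nonpos_iff.mp h6
    linarith

end Erg

section Erg

variable {G : Type v} [Group G] {X : Type*} [TopologicalSpace X] [CompactSpace X]
  [TopologicalSpace.MetrizableSpace X] [MeasurableSpace X] [BorelSpace X] [MulAction G X]
  [ContinuousConstSMul G X] {μ : Measure X} [SMulInvariantMeasure G X μ] [IsProbabilityMeasure μ]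

lemma JJ_compact : IsCompact (Th '' (JJ G μ)) := (JJ_closed.isCompact).image Th_cont

lemma Th_mix {Z : Type*} [TopologicalSpace Z] [CompactSpace Z] [TopologicalSpace.MetrizableSpace Z]
    [MeasurableSpace Z] [BorelSpace Z] {a b : ℝ} (ha : 0 ≤ a) (hb : 0 ≤ b) (hab : a + b = 1) (ρ₁ ρ₂ : ProbabilityMeasure Z) :
    Th (⟨mix a b (ρ₁ : Measure Z) ρ₂, mix_prob ha hb hab _ _⟩ : ProbabilityMeasure Z) = a • Th ρ₁ + b • Th ρ₂ := by
  funext f
  change ∫ z, f z ∂(mix a b (ρ₁ : Measure Z) ρ₂) = a * ∫ z, f z ∂(ρ₁ : Measure Z) + b * ∫ z, f z ∂(ρ₂ : Measure Z)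
  exact mix_integral ha hb _ _ (integrable_cont f _) (integrable_cont f _)

lemma JJ_convex : Convex ℝ (Th '' (JJ G μ)) := by
  rintro _ ⟨ρ₁, h₁, rfl⟩ _ ⟨ρ₂, h₂, rfl⟩ a b ha hb hab
  refine ⟨⟨mix a b (ρ₁ : Measure (X × X)) ρ₂, mix_prob ha hb hab _ _⟩, ?_, Th_mix ha hb hab ρ₁ ρ₂⟩
  refine ⟨?_, fun g => ?_, fun A B hA hB hAP => ?_⟩
  · change (mix a b (ρ₁ : Measure (X × X)) ρ₂).map Prod.fst = μ
    rw [mix_map _ _ measurable_fst, h₁.1, h₂.1, mix_self ha hb hab]
  · change (mix a b (ρ₁ : Measure (X × X)) ρ₂).map _ = mix a b (ρ₁ : Measure (X × X)) ρ₂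
    rw [mix_map _ _ (measurable_smul_prod g), h₁.2.1, h₂.2.1]
  · change (mix a b (ρ₁ : Measure (X × X)) ρ₂).real _ = μ.real A * (mix a b (ρ₁ : Measure (X × X)) ρ₂).real _
    rw [mix_real ha hb, mix_real ha hb, h₁.2.2 A B hA hB hAP, h₂.2.2 A B hA hB hAP]
    ring

/-- The set of product measures. -/
def PP (μ : Measure X) [IsProbabilityMeasure μ] : Set (ProbabilityMeasure (X × X)) :=
  range fun ν : ProbabilityMeasure X => ProbabilityMeasure.prod ⟨μ, inferInstance⟩ ν

lemma PP_closed : IsClosed (Th '' (PP μ)) := by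
  have h1 : Continuous fun ν : ProbabilityMeasure X => ProbabilityMeasure.prod (⟨μ, inferInstance⟩ : ProbabilityMeasure X) ν :=
    ProbabilityMeasure.continuous_prod.comp (continuous_const.prodMk continuous_id)
  exact ((isCompact_range h1).image Th_cont).isClosed

lemma PP_convex : Convex ℝ (Th '' (PP μ)) := by
  rintro _ ⟨_, ⟨ν₁, rfl⟩, rfl⟩ _ ⟨_, ⟨ν₂, rfl⟩, rfl⟩ a b ha hb hab
  refine ⟨_, ⟨⟨mix a b (ν₁ : Measure X) ν₂, mix_prob ha hb hab _ _⟩, rfl⟩, ?_⟩
  rw [← Th_mix ha hb hab]
  congr 1
  apply Subtype.ext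
  change μ.prod (mix a b (ν₁ : Measure X) ν₂) = mix a b (μ.prod (ν₁ : Measure X)) (μ.prod (ν₂ : Measure X))
  have i1 : IsProbabilityMeasure (mix a b (ν₁ : Measure X) ν₂) := mix_prob ha hb hab _ _
  apply Measure.prod_eq
  intro A B hA hB
  rw [mix_apply, mix_apply, Measure.prod_prod, Measure.prod_prod]
  ring

/-- Ergodicity of an invariant measure. -/
def Erg (G : Type v) [Group G] {X : Type*} [MeasurableSpace X] [MulAction G X] (ν : Measure X) : Prop :=
  ∀ A : Set X, MeasurableSet A → (∀ g : G, (fun x => g • x) ⁻¹' A = A) → ν A = 0 ∨ ν A = 1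

lemma extreme_ergodic {ρ : ProbabilityMeasure (X × X)} (hρ : ρ ∈ JJ G μ)
    (hext : Th ρ ∈ extremePoints ℝ (Th '' (JJ G μ))) : Erg G ((ρ : Measure (X × X)).map Prod.snd) := by
  set ν : Measure X := (ρ : Measure (X × X)).map Prod.snd with hν
  have hνp : IsProbabilityMeasure ν := Measure.isProbabilityMeasure_map measurable_snd.aemeasurable
  have hνinv : SMulInvariantMeasure G X ν := by
    constructor
    intro g s hs
    rw [hν, Measure.map_apply measurable_snd hs, Measure.map_apply measurable_snd (hs.preimage (measurable_const_smul g))]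
    have h1 := hρ.2.1 g
    conv_rhs => rw [← h1]
    rw [Measure.map_apply (measurable_smul_prod g) (hs.preimage measurable_snd)]
    rfl
  have hj : IsJoining G μ ν (ρ : Measure (X × X)) := ⟨hρ.1, rfl, hρ.2.1⟩
  intro A hA hinv
  by_contra hcon
  push Not at hcon
  have hpos : 0 < ν.real A := by
    rw [measureReal_def, ENNReal.toReal_pos_iff]
    exact ⟨pos_iff_ne_zero.mpr hcon.1, measure_lt_top _ _⟩
  have hlt : ν.real A < 1 := by
    have h1 : ν.real A ≤ 1 := measureReal_le_one
    refine lt_of_le_of_ne h1 fun h2 => hcon.2 ?_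
    rw [measureReal_def] at h2
    have := (ENNReal.toReal_eq_one_iff _).mp h2
    exact this
  have hνreal : ∀ B : Set X, MeasurableSet B → ν.real B = (ρ : Measure (X × X)).real (univ ×ˢ B) := by
    intro B hB
    rw [hν, measureReal_def, Measure.map_apply measurable_snd hB, measureReal_def]
    congr 2
    ext p; simp
  have ht : ∀ (K B : Set X) (hK : MeasurableSet K) (_ : MeasurableSet B), RAP G μ (ind μ hK) →
      (ρ : Measure (X × X)).real (K ×ˢ B) = μ.real K * ν.real B := by
    intro K B hK hB hKP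
    rw [hνreal B hB]
    exact hρ.2.2 K B hK hB hKP
  -- for an invariant set, define the conditioned measures
  have hcond : ∀ A : Set X, MeasurableSet A → (∀ g : G, (fun x => g • x) ⁻¹' A = A) → 0 < ν.real A →
      ∃ σ : ProbabilityMeasure (X × X), σ ∈ JJ G μ ∧ ∀ E, MeasurableSet E →
        (σ : Measure (X × X)).real E = (ν.real A)⁻¹ * (ρ : Measure (X × X)).real ((univ ×ˢ A) ∩ E) := by
    intro A hA hinv hpos
    have hAm : MeasurableSet ((univ : Set X) ×ˢ A) := MeasurableSet.univ.prod hA
    have hreal : (ρ : Measure (X × X)).real (univ ×ˢ A) = ν.real A := (hνreal A hA).symm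
    have hne : (ρ : Measure (X × X)) (univ ×ˢ A) ≠ 0 := by
      intro h0
      rw [measureReal_def, h0, ENNReal.toReal_zero] at hreal
      linarith
    have hp : IsProbabilityMeasure (cond (ρ : Measure (X × X)) (univ ×ˢ A)) := cond_isProbabilityMeasure hne
    have hformula : ∀ E, MeasurableSet E →
        (cond (ρ : Measure (X × X)) (univ ×ˢ A)).real E = (ν.real A)⁻¹ * (ρ : Measure (X × X)).real ((univ ×ˢ A) ∩ E) := by
      intro E _
      rw [measureReal_def, cond_apply hAm, ENNReal.toReal_mul, ENNReal.toReal_inv, ← hreal]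
      rfl
    refine ⟨⟨cond (ρ : Measure (X × X)) (univ ×ˢ A), hp⟩, ⟨?_, ?_, ?_⟩, hformula⟩
    · change (cond (ρ : Measure (X × X)) (univ ×ˢ A)).map Prod.fst = μ
      have i1 : IsProbabilityMeasure ((cond (ρ : Measure (X × X)) (univ ×ˢ A)).map Prod.fst) :=
        Measure.isProbabilityMeasure_map measurable_fst.aemeasurable
      ext B hB
      refine (measureReal_eq_measureReal_iff).mp ?_
      rw [measureReal_def, Measure.map_apply measurable_fst hB]
      have h1 := hformula (Prod.fst ⁻¹' B) (hB.preimage measurable_fst)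
      have h2 : ((univ : Set X) ×ˢ A) ∩ (Prod.fst ⁻¹' B) = B ×ˢ A := by
        ext p; simp [and_comm]
      rw [h2, joining_invariant hj ht hA hinv hB] at h1
      rw [← measureReal_def, h1]
      field_simp
    · intro g
      change (cond (ρ : Measure (X × X)) (univ ×ˢ A)).map _ = cond (ρ : Measure (X × X)) (univ ×ˢ A)
      have i1 : IsProbabilityMeasure ((cond (ρ : Measure (X × X)) (univ ×ˢ A)).map (fun p : X × X => (g • p.1, g • p.2))) :=
        Measure.isProbabilityMeasure_map (measurable_smul_prod g).aemeasurable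
      ext E hE
      refine (measureReal_eq_measureReal_iff).mp ?_
      rw [measureReal_def, Measure.map_apply (measurable_smul_prod g) hE, ← measureReal_def,
        hformula _ (hE.preimage (measurable_smul_prod g)), hformula _ hE]
      congr 1
      have h1 := hρ.2.1 g
      have h2 : (ρ : Measure (X × X)).real ((univ ×ˢ A) ∩ E) = ((ρ : Measure (X × X)).map (fun p : X × X => (g • p.1, g • p.2))).real ((univ ×ˢ A) ∩ E) := by
        rw [h1]
      rw [h2, measureReal_def, measureReal_def, Measure.map_apply (measurable_smul_prod g) (hAm.inter hE)]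
      congr 2
      ext p
      simp only [mem_inter_iff, mem_prod, mem_univ, true_and, mem_preimage]
      have h3 : g • p.2 ∈ A ↔ p.2 ∈ A := by
        conv_rhs => rw [← hinv g]
        rfl
      rw [h3]
    · intro K B hK hB hKP
      change (cond (ρ : Measure (X × X)) (univ ×ˢ A)).real _ = μ.real K * (cond (ρ : Measure (X × X)) (univ ×ˢ A)).real _
      rw [hformula _ (hK.prod hB), hformula _ (MeasurableSet.univ.prod hB)]
      have h1 : ((univ : Set X) ×ˢ A) ∩ (K ×ˢ B) = K ×ˢ (A ∩ B) := by
        ext p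
        simp only [mem_inter_iff, mem_prod, mem_univ, true_and]
        tauto
      have h2 : ((univ : Set X) ×ˢ A) ∩ (univ ×ˢ B) = (univ : Set X) ×ˢ (A ∩ B) := by
        ext p
        simp only [mem_inter_iff, mem_prod, mem_univ, true_and]
      rw [h1, h2, ht K (A ∩ B) hK (hA.inter hB) hKP, ← hνreal _ (hA.inter hB)]
      ring
  obtain ⟨σ₁, hσ₁, hf₁⟩ := hcond A hA hinv hpos
  have hcompl : ν.real Aᶜ = 1 - ν.real A := by
    rw [measureReal_compl hA]
    simp
  obtain ⟨σ₂, hσ₂, hf₂⟩ := hcond Aᶜ hA.compl (fun g => by rw [preimage_compl, hinv g]) (by rw [hcompl]; linarith)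
  have hseg : Th ρ ∈ openSegment ℝ (Th σ₁) (Th σ₂) := by
    refine ⟨ν.real A, ν.real Aᶜ, hpos, by rw [hcompl]; linarith, by rw [hcompl]; ring, ?_⟩
    rw [← Th_mix hpos.le (by rw [hcompl]; linarith) (by rw [hcompl]; ring)]
    congr 1
    apply Subtype.ext
    change mix (ν.real A) (ν.real Aᶜ) (σ₁ : Measure (X × X)) σ₂ = (ρ : Measure (X × X))
    have i1 : IsProbabilityMeasure (mix (ν.real A) (ν.real Aᶜ) (σ₁ : Measure (X × X)) σ₂) :=
      mix_prob hpos.le (by rw [hcompl]; linarith) (by rw [hcompl]; ring) _ _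
    ext E hE
    refine (measureReal_eq_measureReal_iff).mp ?_
    rw [mix_real hpos.le (by rw [hcompl]; linarith), hf₁ E hE, hf₂ E hE]
    have hc : ν.real Aᶜ ≠ 0 := by rw [hcompl]; linarith
    rw [mul_inv_cancel_left₀ hpos.ne', mul_inv_cancel_left₀ hc]
    rw [← measureReal_inter_add_sdiff (s := E) (t := (univ : Set X) ×ˢ A) (MeasurableSet.univ.prod hA)]
    congr 1
    · rw [inter_comm]
    · congr 1
      ext p
      simp only [mem_inter_iff, mem_prod, mem_univ, true_and, mem_compl_iff, Set.mem_sdiff]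
      tauto
  have hT := (mem_extremePoints.mp hext).2 _ ⟨σ₁, hσ₁, rfl⟩ _ ⟨σ₂, hσ₂, rfl⟩ hseg
  have hE1 : σ₁ = ρ := Th_inj hT.1
  have h9 := hf₁ (univ ×ˢ A) (MeasurableSet.univ.prod hA)
  rw [inter_self, hE1, ← hνreal A hA, inv_mul_cancel₀ hpos.ne'] at h9
  linarith

/-- **Quasi-disjointness from all ergodic systems implies self quasi-disjointness.** -/
theorem prod_of_ergodic
    (herg : ∀ ν : Measure X, ∀ (_ : IsProbabilityMeasure ν) (_ : SMulInvariantMeasure G X ν), Erg G ν →
      ∀ ρ : Measure (X × X), IsJoining G μ ν ρ →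
      (∀ (A B : Set X) (hA : MeasurableSet A) (hB : MeasurableSet B), RAP G μ (ind μ hA) → RAP G ν (ind ν hB) →
        ρ.real (A ×ˢ B) = μ.real A * ν.real B) → ρ = μ.prod ν)
    {ρ : Measure (X × X)} (h : IsJoining G μ μ ρ)
    (ht : ∀ (A B : Set X) (hA : MeasurableSet A) (hB : MeasurableSet B), RAP G μ (ind μ hA) → RAP G μ (ind μ hB) →
      ρ.real (A ×ˢ B) = μ.real A * μ.real B) : ρ = μ.prod μ := by
  have hp := h.isProb
  have hsndreal : ∀ B : Set X, MeasurableSet B → ρ.real (univ ×ˢ B) = μ.real B := by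
    intro B hB
    rw [measureReal_def, measureReal_def, ← h.mpsnd.measure_preimage hB.nullMeasurableSet]
    congr 2
    ext p; simp
  have hρ : (⟨ρ, hp⟩ : ProbabilityMeasure (X × X)) ∈ JJ G μ := by
    refine ⟨h.fst, h.inv, fun A B hA hB hAP => ?_⟩
    change ρ.real (A ×ˢ B) = μ.real A * ρ.real (univ ×ˢ B)
    rw [hsndreal B hB]
    exact joining_kronecker h ht hA hAP hB
  have hKM := closure_convexHull_extremePoints (JJ_compact (G := G) (μ := μ)) JJ_convex
  have hsub : extremePoints ℝ (Th '' (JJ G μ)) ⊆ Th '' (PP μ) := by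
    intro θ hθ
    obtain ⟨σ, hσ, rfl⟩ := hθ.1
    have hergσ := extreme_ergodic hσ hθ
    set ν : Measure X := (σ : Measure (X × X)).map Prod.snd with hν
    have hνp : IsProbabilityMeasure ν := Measure.isProbabilityMeasure_map measurable_snd.aemeasurable
    have hνinv : SMulInvariantMeasure G X ν := by
      constructor
      intro g s hs
      rw [hν, Measure.map_apply measurable_snd hs, Measure.map_apply measurable_snd (hs.preimage (measurable_const_smul g))]
      have h1 := hσ.2.1 g
      conv_rhs => rw [← h1]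
      rw [Measure.map_apply (measurable_smul_prod g) (hs.preimage measurable_snd)]
      rfl
    have hj : IsJoining G μ ν (σ : Measure (X × X)) := ⟨hσ.1, rfl, hσ.2.1⟩
    have heq := herg ν hνp hνinv hergσ σ hj (by
      intro A B hA hB hAP _
      rw [hσ.2.2 A B hA hB hAP, hν]
      congr 1
      rw [measureReal_def, measureReal_def, Measure.map_apply measurable_snd hB]
      congr 2
      ext p; simp)
    refine ⟨_, ⟨⟨ν, hνp⟩, rfl⟩, ?_⟩
    congr 1
    apply Subtype.ext
    exact heq.symm
  have hmem : Th (⟨ρ, hp⟩ : ProbabilityMeasure (X × X)) ∈ Th '' (PP μ) := by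
    have h1 : Th (⟨ρ, hp⟩ : ProbabilityMeasure (X × X)) ∈ closure (convexHull ℝ (extremePoints ℝ (Th '' (JJ G μ)))) := by
      rw [hKM]; exact ⟨_, hρ, rfl⟩
    exact closure_minimal (convexHull_min hsub PP_convex) PP_closed h1
  obtain ⟨_, ⟨ν, rfl⟩, h2⟩ := hmem
  have h3 := congrArg Subtype.val (Th_inj h2)
  change μ.prod (ν : Measure X) = ρ at h3
  have h4 : (ν : Measure X) = μ := by
    have h5 := h.snd
    rw [← h3, Measure.map_snd_prod, measure_univ, one_smul] at h5
    exact h5
  rw [← h3, h4]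

end Erg

section Alg

variable {G : Type v} [Group G] {X : Type*} [MeasurableSpace X] [MulAction G X]
  [MeasurableConstSMul G X] (μ : Measure X) [SMulInvariantMeasure G X μ] [IsFiniteMeasure μ]

lemma coeFn_ind {A : Set X} (hA : MeasurableSet A) : (ind μ hA : X → ℝ) =ᵐ[μ] A.indicator (fun _ => (1:ℝ)) :=
  indicatorConstLp_coeFn

lemma ind_congr {A B : Set X} (hA : MeasurableSet A) (hB : MeasurableSet B) (h : A =ᵐ[μ] B) : ind μ hA = ind μ hB := by
  apply Lp.ext
  refine (coeFn_ind μ hA).trans (EventuallyEq.trans ?_ (coeFn_ind μ hB).symm)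
  exact indicator_ae_eq_of_ae_eq_set h

lemma ind_compl {A : Set X} (hA : MeasurableSet A) : ind μ hA.compl = one μ + (-1 : ℝ) • ind μ hA := by
  apply Lp.ext
  filter_upwards [coeFn_ind μ hA, coeFn_ind μ hA.compl, coeFn_ind μ MeasurableSet.univ, Lp.coeFn_add (one μ) ((-1 : ℝ) • ind μ hA), Lp.coeFn_smul (-1 : ℝ) (ind μ hA)] with x h1 h2 h3 h4 h5
  rw [h4, Pi.add_apply, h5, Pi.smul_apply, h2, h1]
  have h6 : (one μ : X → ℝ) x = (univ : Set X).indicator (fun _ => (1:ℝ)) x := h3
  rw [h6]
  by_cases hx : x ∈ A <;> simp [hx]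

lemma min_lip : LipschitzWith 1 (fun s : ℝ => min s 1) := LipschitzWith.id.min_const 1

lemma ind_union {A B : Set X} (hA : MeasurableSet A) (hB : MeasurableSet B) :
    ind μ (hA.union hB) = min_lip.compLp (by norm_num) (ind μ hA + ind μ hB) := by
  apply Lp.ext
  filter_upwards [coeFn_ind μ hA, coeFn_ind μ hB, coeFn_ind μ (hA.union hB), Lp.coeFn_add (ind μ hA) (ind μ hB), min_lip.coeFn_compLp (by norm_num) (ind μ hA + ind μ hB)] with x h1 h2 h3 h4 h5
  rw [h3, h5, Function.comp_apply, h4, Pi.add_apply, h1, h2]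
  by_cases hxA : x ∈ A <;> by_cases hxB : x ∈ B <;> simp [hxA, hxB]

lemma RAP_compl {A : Set X} (hA : MeasurableSet A) (h : RAP G μ (ind μ hA)) : RAP G μ (ind μ hA.compl) := by
  rw [ind_compl μ hA]
  exact RAP_one.add μ (h.smul μ _)

lemma RAP_union {A B : Set X} (hA : MeasurableSet A) (hB : MeasurableSet B) (h : RAP G μ (ind μ hA))
    (h' : RAP G μ (ind μ hB)) : RAP G μ (ind μ (hA.union hB)) := by
  rw [ind_union]
  exact (h.add μ h').comp_lipschitz μ _ _

lemma RAP_empty : RAP G μ (ind μ MeasurableSet.empty) := by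
  refine RAP.of_fixed μ fun g => ?_
  rw [koopman_ind]

lemma RAP_iUnion {A : ℕ → Set X} (hA : ∀ n, MeasurableSet (A n)) (h : ∀ n, RAP G μ (ind μ (hA n))) :
    RAP G μ (ind μ (MeasurableSet.iUnion hA)) := by
  have hacc : ∀ n, MeasurableSet (accumulate A n) := fun n => MeasurableSet.biUnion (to_countable _) fun i _ => hA i
  have h1 : ∀ n, RAP G μ (ind μ (hacc n)) := by
    intro n
    induction n with
    | zero =>
      have : accumulate A 0 = A 0 := by ext x; simp
      simp only [this]
      exact h 0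
    | succ n ih =>
      have : accumulate A (n + 1) = accumulate A n ∪ A (n + 1) := accumulate_succ A n
      simp only [this]
      exact RAP_union μ (hacc n) (hA (n + 1)) ih (h (n + 1))
  have hlim : Tendsto (fun n => ind μ (hacc n)) atTop (𝓝 (ind μ (MeasurableSet.iUnion hA))) := by
    unfold ind
    refine tendsto_indicatorConstLp_set (by norm_num) ?_
    have h2 : Tendsto (fun n => μ (accumulate A n)) atTop (𝓝 (μ (⋃ n, A n))) := tendsto_measure_iUnion_accumulate
    have h3 : ∀ n, μ (symmDiff (accumulate A n) (⋃ n, A n)) = μ (⋃ n, A n) - μ (accumulate A n) := by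
      intro n
      have hsub : accumulate A n ⊆ ⋃ n, A n := accumulate_subset_iUnion n
      rw [symmDiff_of_le (α := Set X) hsub, ← measure_sdiff hsub (hacc n).nullMeasurableSet (measure_ne_top μ _)]
    simp only [h3]
    have h4 := ENNReal.Tendsto.sub (tendsto_const_nhds (x := μ (⋃ n, A n))) h2 (Or.inl (measure_ne_top μ _))
    rwa [tsub_self] at h4
  exact (RAP.isClosed μ).mem_of_tendsto hlim (Eventually.of_forall h1)

variable (G)

/-- The `σ`-algebra of the Kronecker factor. -/
@[instance_reducible] def kroneckerAlgebra : MeasurableSpace X where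
  MeasurableSet' := IsKS G μ
  measurableSet_empty := (isKroneckerSet_iff μ _).mpr ⟨MeasurableSet.empty, RAP_empty μ⟩
  measurableSet_compl A hA := by
    obtain ⟨h1, h2⟩ := (isKroneckerSet_iff μ _).mp hA
    exact (isKroneckerSet_iff μ _).mpr ⟨h1.compl, RAP_compl μ h1 h2⟩
  measurableSet_iUnion A hA := by
    have h1 := fun n => (isKroneckerSet_iff μ _).mp (hA n)
    choose h2 h3 using h1
    exact (isKroneckerSet_iff μ _).mpr ⟨MeasurableSet.iUnion h2, RAP_iUnion μ h2 h3⟩

variable {G}

lemma kroneckerAlgebra_le : kroneckerAlgebra G μ ≤ (inferInstance : MeasurableSpace X) := by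
  intro A hA
  exact ((isKroneckerSet_iff μ _).mp hA).1

lemma measurableSet_kronecker_iff (A : Set X) : MeasurableSet[kroneckerAlgebra G μ] A ↔ IsKS G μ A := Iff.rfl

lemma kronecker_of_ae {A B : Set X} (hA : MeasurableSet A) (h : A =ᵐ[μ] B) (hB : IsKS G μ B) : IsKS G μ A := by
  obtain ⟨h1, h2⟩ := (isKroneckerSet_iff μ _).mp hB
  refine (isKroneckerSet_iff μ _).mpr ⟨hA, ?_⟩
  rw [ind_congr μ hA h1 h]
  exact h2

lemma RAP.measurable {f : Lp ℝ 2 μ} (h : RAP G μ f) : Measurable[kroneckerAlgebra G μ] (f : X → ℝ) := by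
  refine measurable_of_Ioi (mδ := kroneckerAlgebra G μ) (fun t => ?_)
  have h1 : RAP G μ (f + (-t) • one μ) := h.add μ (RAP_one.smul μ _)
  have h2 := h1.pos μ
  have hm : MeasurableSet ((f : X → ℝ) ⁻¹' Ioi t) := (Lp.stronglyMeasurable f).measurable measurableSet_Ioi
  refine kronecker_of_ae μ hm ?_ ((isKroneckerSet_iff μ _).mpr ⟨pos_meas μ _, h2⟩)
  filter_upwards [Lp.coeFn_add f ((-t) • one μ), Lp.coeFn_smul (-t) (one μ), coeFn_ind μ MeasurableSet.univ] with x h3 h4 h5
  have h6 : (one μ : X → ℝ) x = (univ : Set X).indicator (fun _ => (1:ℝ)) x := h5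
  apply propext
  change t < f x ↔ 0 < (f + (-t) • one μ : Lp ℝ 2 μ) x
  rw [h3, Pi.add_apply, h4, Pi.smul_apply, h6]
  simp

/-- real part -/
def reL (f : Lp ℂ 2 μ) : Lp ℝ 2 μ := Complex.reCLM.compLp f
/-- imaginary part -/
def imL (f : Lp ℂ 2 μ) : Lp ℝ 2 μ := Complex.imCLM.compLp f

lemma coeFn_reL (f : Lp ℂ 2 μ) : (reL μ f : X → ℝ) =ᵐ[μ] fun x => (f x).re := ContinuousLinearMap.coeFn_compLp _ _
lemma coeFn_imL (f : Lp ℂ 2 μ) : (imL μ f : X → ℝ) =ᵐ[μ] fun x => (f x).im := ContinuousLinearMap.coeFn_compLp _ _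

lemma RAP_reL {f : Lp ℂ 2 μ} (h : f ∈ kroneckerSpace G μ) : RAP G μ (reL μ f) := by
  rw [mem_kroneckerSpace] at h
  refine AP.map h (reL μ) ((Complex.reCLM.compLpL 2 μ).continuous) (fun g => ?_)
  apply Lp.ext
  have h1 := (measurePreserving_smul g μ).quasiMeasurePreserving.ae (coeFn_reL μ f)
  filter_upwards [coeFn_reL μ (koopman μ ℂ g f), coeFn_koopman μ ℂ g f, coeFn_koopman μ ℝ g (reL μ f), h1] with x h2 h3 h4 h5
  rw [h2, h3, h4, h5]

lemma RAP_imL {f : Lp ℂ 2 μ} (h : f ∈ kroneckerSpace G μ) : RAP G μ (imL μ f) := by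
  rw [mem_kroneckerSpace] at h
  refine AP.map h (imL μ) ((Complex.imCLM.compLpL 2 μ).continuous) (fun g => ?_)
  apply Lp.ext
  have h1 := (measurePreserving_smul g μ).quasiMeasurePreserving.ae (coeFn_imL μ f)
  filter_upwards [coeFn_imL μ (koopman μ ℂ g f), coeFn_koopman μ ℂ g f, coeFn_koopman μ ℝ g (imL μ f), h1] with x h2 h3 h4 h5
  rw [h2, h3, h4, h5]

/-- The Kronecker subspace is exactly the space of `L²` functions measurable with respect to the
Kronecker `σ`-algebra. -/
theorem kroneckerSpace_eq : kroneckerSpace G μ = lpMeas ℂ ℂ (kroneckerAlgebra G μ) 2 μ := by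
  apply le_antisymm
  · intro f hf
    rw [mem_lpMeas_iff_aestronglyMeasurable]
    have h1 : Measurable[kroneckerAlgebra G μ] (reL μ f : X → ℝ) := (RAP_reL μ hf).measurable μ
    have h2 : Measurable[kroneckerAlgebra G μ] (imL μ f : X → ℝ) := (RAP_imL μ hf).measurable μ
    have h3 : Measurable[kroneckerAlgebra G μ] (fun x => ((reL μ f x : ℝ) : ℂ) + ((imL μ f x : ℝ) : ℂ) * Complex.I) := by
      have i1 : Measurable[kroneckerAlgebra G μ] (fun x => ((reL μ f x : ℝ) : ℂ)) := Complex.measurable_ofReal.comp h1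
      have i2 : Measurable[kroneckerAlgebra G μ] (fun x => ((imL μ f x : ℝ) : ℂ)) := Complex.measurable_ofReal.comp h2
      exact i1.add (i2.mul_const Complex.I)
    refine ⟨_, h3.stronglyMeasurable, ?_⟩
    filter_upwards [coeFn_reL μ f, coeFn_imL μ f] with x h4 h5
    rw [h4, h5, Complex.re_add_im]
  · intro f hf
    rw [mem_lpMeas_iff_aestronglyMeasurable] at hf
    refine Lp.induction_stronglyMeasurable (kroneckerAlgebra_le μ) (by norm_num) (fun f => f ∈ kroneckerSpace G μ) ?_ ?_ ?_ f hf
    · intro c s hs hμs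
      rw [Lp.simpleFunc.coe_indicatorConst]
      have h1 : indicatorConstLp 2 (kroneckerAlgebra_le μ s hs) hμs.ne c = c • indicatorConstLp 2 (kroneckerAlgebra_le μ s hs) hμs.ne (1 : ℂ) := by
        apply Lp.ext
        filter_upwards [indicatorConstLp_coeFn (p := 2) (hs := kroneckerAlgebra_le μ s hs) (hμs := hμs.ne) (c := c), indicatorConstLp_coeFn (p := 2) (hs := kroneckerAlgebra_le μ s hs) (hμs := hμs.ne) (c := (1 : ℂ)), Lp.coeFn_smul c (indicatorConstLp 2 (kroneckerAlgebra_le μ s hs) hμs.ne (1 : ℂ))] with x h2 h3 h4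
        rw [h2, h4, Pi.smul_apply, h3]
        by_cases hx : x ∈ s <;> simp [hx]
      rw [h1]
      apply Submodule.smul_mem
      obtain ⟨h5, h6⟩ := (measurableSet_kronecker_iff μ s).mp hs
      exact h6
    · intro f g _ _ _ _ _ hf hg
      exact Submodule.add_mem _ hf hg
    · have h1 : IsClosed ((kroneckerSpace G μ : Submodule ℂ (Lp ℂ 2 μ)) : Set (Lp ℂ 2 μ)) :=
        Submodule.isClosed_topologicalClosure _
      exact h1.preimage continuous_subtype_val

end Alg

section Final

variable {G : Type v} [Group G]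

lemma measurableSet_kron_iff (S : GSystem.{u, v} G) (A : Set (Kron S)) :
    MeasurableSet A ↔ @IsKS G _ S.X _ _ _ S.μ _ _ A := by
  have h0 : {A : Set S.X | IsKroneckerSet G S.μ A} = {A : Set S.X | IsKS G S.μ A} := by
    ext A
    exact isKS_iff G S.μ A
  have h1 := @MeasurableSpace.generateFrom_measurableSet S.X (kroneckerAlgebra G S.μ)
  have h : MeasurableSpace.generateFrom {A : Set S.X | IsKroneckerSet G S.μ A} = kroneckerAlgebra G S.μ := by
    rw [h0]; exact h1
  have h2 : (inferInstance : MeasurableSpace (Kron S)) = kroneckerAlgebra G S.μ := h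
  exact (congrArg (fun m : MeasurableSpace (Kron S) => @MeasurableSet _ m A) h2).to_iff

lemma measurable_toKron (S : GSystem.{u, v} G) : Measurable (toKron S) := fun A hA =>
  ((isKroneckerSet_iff (G := G) S.μ (toKron S ⁻¹' A)).mp ((measurableSet_kron_iff S A).mp hA)).1

lemma kron_trivial_iff (S T : GSystem.{u, v} G) (ρ : Measure (S.X × T.X)) [IsProbabilityMeasure ρ] :
    ρ.map (Prod.map (toKron S) (toKron T)) = (S.μ.map (toKron S)).prod (T.μ.map (toKron T)) ↔
    ∀ (A : Set S.X) (B : Set T.X) (hA : MeasurableSet A) (hB : MeasurableSet B), RAP G S.μ (ind S.μ hA) →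
      RAP G T.μ (ind T.μ hB) → ρ.real (A ×ˢ B) = S.μ.real A * T.μ.real B := by
  have hm : Measurable (Prod.map (toKron S) (toKron T)) := (measurable_toKron S).prodMap (measurable_toKron T)
  have i1 : IsProbabilityMeasure (S.μ.map (toKron S)) := Measure.isProbabilityMeasure_map (measurable_toKron S).aemeasurable
  have i2 : IsProbabilityMeasure (T.μ.map (toKron T)) := Measure.isProbabilityMeasure_map (measurable_toKron T).aemeasurable
  have i3 : IsProbabilityMeasure (ρ.map (Prod.map (toKron S) (toKron T))) := Measure.isProbabilityMeasure_map hm.aemeasurable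
  have hrect : ∀ (A : Set (Kron S)) (B : Set (Kron T)), MeasurableSet A → MeasurableSet B →
      ρ.map (Prod.map (toKron S) (toKron T)) (A ×ˢ B) = ρ ((toKron S ⁻¹' A) ×ˢ (toKron T ⁻¹' B)) := by
    intro A B hA hB
    rw [Measure.map_apply hm (hA.prod hB)]
    rfl
  constructor
  · intro h A B hA hB hAP hBP
    have hA' : @MeasurableSet (Kron S) _ A := (measurableSet_kron_iff S A).mpr ((isKroneckerSet_iff S.μ A).mpr ⟨hA, hAP⟩)
    have hB' : @MeasurableSet (Kron T) _ B := (measurableSet_kron_iff T B).mpr ((isKroneckerSet_iff T.μ B).mpr ⟨hB, hBP⟩)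
    have h1 := hrect A B hA' hB'
    rw [h, Measure.prod_prod, Measure.map_apply (measurable_toKron S) hA', Measure.map_apply (measurable_toKron T) hB'] at h1
    have h2 := congrArg ENNReal.toReal h1
    rw [ENNReal.toReal_mul] at h2
    exact h2.symm
  · intro h
    symm
    apply Measure.prod_eq
    intro A B hA hB
    obtain ⟨hA1, hA2⟩ := (isKroneckerSet_iff (G := G) (X := S.X) S.μ A).mp ((measurableSet_kron_iff S A).mp hA)
    obtain ⟨hB1, hB2⟩ := (isKroneckerSet_iff (G := G) (X := T.X) T.μ B).mp ((measurableSet_kron_iff T B).mp hB)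
    rw [hrect A B hA hB, Measure.map_apply (measurable_toKron S) hA, Measure.map_apply (measurable_toKron T) hB]
    have h1 := h A B hA1 hB1 hA2 hB2
    rw [measureReal_def, measureReal_def, measureReal_def, ← ENNReal.toReal_mul] at h1
    exact (ENNReal.toReal_eq_toReal_iff' (measure_ne_top _ _) (ENNReal.mul_ne_top (measure_ne_top _ _) (measure_ne_top _ _))).mp h1

lemma quasiDisjoint_iff (S T : GSystem.{u, v} G) : QuasiDisjoint S T ↔
    ∀ ρ : Measure (S.X × T.X), IsJoining G S.μ T.μ ρ →
      (∀ (A : Set S.X) (B : Set T.X) (hA : MeasurableSet A) (hB : MeasurableSet B), RAP G S.μ (ind S.μ hA) →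
        RAP G T.μ (ind T.μ hB) → ρ.real (A ×ˢ B) = S.μ.real A * T.μ.real B) → ρ = S.μ.prod T.μ := by
  unfold QuasiDisjoint
  refine forall_congr' fun ρ => ?_
  constructor
  · intro h hj ht
    have := hj.isProb
    exact h hj ((kron_trivial_iff S T ρ).mpr ht)
  · intro h hj ht
    have := hj.isProb
    exact h hj ((kron_trivial_iff S T ρ).mp ht)

/-- **Main theorem.**  A `G`-system is quasi-disjoint from every ergodic `G`-system if and only if it
is quasi-disjoint from itself. -/
theorem main (G : Type v) [Group G] (S : GSystem.{u, v} G) :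
    (∀ T : GSystem.{u, v} G, T.IsErgodic → QuasiDisjoint S T) ↔ QuasiDisjoint S S := by
  constructor
  · intro h
    rw [quasiDisjoint_iff]
    intro ρ hj ht
    refine prod_of_ergodic (G := G) ?_ hj ht
    intro ν i1 i2 herg ρ' hj' ht'
    let T : GSystem.{u, v} G :=
      { X := S.X
        μ := ν }
    have hT : T.IsErgodic := herg
    exact (quasiDisjoint_iff S T).mp (h T hT) ρ' hj' ht'
  · intro h T _
    rw [quasiDisjoint_iff] at h ⊢
    intro ρ hj ht
    have : PolishSpace S.X := polish_of_compact_metrizable S.X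
    have : Nonempty S.X := nonempty_of_isProbabilityMeasure S.μ
    exact prod_of_self hj h ht


end Final

end

end Pool.Agent.Helper81.QuasiDisj
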