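import Mathlib

/-!
# Quasi-disjoint systems: definitions

A `G`-system (`GSystem`) is a compact metrizable space with an action of `G` by homeomorphisms and an
invariant Borel probability measure.  The Kronecker subspace is the closed
subspace of complex `L²` spanned by the functions whose orbit has compact closure; the Kronecker
factor (`Kron`) is the factor given by the `σ`-algebra generated by the sets whose indicator function
lies in this subspace.
-/

open MeasureTheory Set

namespace Pool.Agent.Helper81.QuasiDisj

noncomputable section

universe u v

section Dyn

variable (G : Type v) [Group G]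

/-- A `G`-system: a compact metrizable space with an action of `G` by homeomorphisms and an
invariant Borel probability measure. -/
structure GSystem where
  /-- the underlying space -/
  X : Type u
  [top : TopologicalSpace X]
  [compact : CompactSpace X]
  [metrizable : TopologicalSpace.MetrizableSpace X]
  [mble : MeasurableSpace X]
  [borel : BorelSpace X]
  [act : MulAction G X]
  [cont : ContinuousConstSMul G X]
  /-- the measure -/
  μ : Measure X
  [prob : IsProbabilityMeasure μ]
  [inv : SMulInvariantMeasure G X μ]

attribute [instance] GSystem.top GSystem.compact GSystem.metrizable GSystem.mble GSystem.borel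
  GSystem.act GSystem.cont GSystem.prob GSystem.inv

variable {G}

/-- Ergodicity: every invariant Borel set has measure `0` or `1`. -/
def GSystem.IsErgodic (S : GSystem.{u, v} G) : Prop :=
  ∀ A : Set S.X, MeasurableSet A → (∀ g : G, (fun x => g • x) ⁻¹' A = A) → S.μ A = 0 ∨ S.μ A = 1

end Dyn

/-- The closed complex linear span of the vectors `f` whose orbit `orb f` has compact closure. -/
def apSpan {H : Type*} [NormedAddCommGroup H] [NormedSpace ℂ H] (orb : H → Set H) : Set H :=
  closure (Submodule.span ℂ {f : H | IsCompact (closure (orb f))} : Set H)

section Koop

variable (G : Type v) [Group G] {X : Type*} [MeasurableSpace X] [MulAction G X]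
  [MeasurableConstSMul G X] (μ : Measure X) [SMulInvariantMeasure G X μ]

/-- The orbit `{f ∘ T^g : g ∈ G}` of an element of complex `L²`. -/
def orbit (f : Lp ℂ 2 μ) : Set (Lp ℂ 2 μ) :=
  {h | ∃ g : G, (h : X → ℂ) =ᵐ[μ] fun x => f (g • x)}

/-- The sets of the `σ`-algebra of the Kronecker factor: those whose indicator function belongs to
the Kronecker subspace of `L²`, the closed span of the `f` for which `{f ∘ T^g : g ∈ G}` has compact
closure. -/
def IsKroneckerSet [IsFiniteMeasure μ] (A : Set X) : Prop :=
  ∃ h : MeasurableSet A, indicatorConstLp 2 h (measure_ne_top μ A) (1 : ℂ) ∈ apSpan (orbit G μ)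

/-- Joinings of two invariant measures. -/
structure IsJoining {Y : Type*} [MeasurableSpace Y] [MulAction G Y]
    (μ : Measure X) (ν : Measure Y) (ρ : Measure (X × Y)) : Prop where
  fst : ρ.map Prod.fst = μ
  snd : ρ.map Prod.snd = ν
  inv : ∀ g : G, ρ.map (fun p => (g • p.1, g • p.2)) = ρ

end Koop

section Final

variable {G : Type v} [Group G]

/-- The Kronecker factor of a `G`-system, realised on the same set with the Kronecker
`σ`-algebra. -/
def Kron (S : GSystem.{u, v} G) : Type u := S.X

instance (S : GSystem.{u, v} G) : MeasurableSpace (Kron S) :=
  MeasurableSpace.generateFrom {A : Set S.X | IsKroneckerSet G S.μ A}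

/-- The factor map onto the Kronecker factor. -/
def toKron (S : GSystem.{u, v} G) : S.X → Kron S := fun x => x

/-- Quasi-disjointness: the product measure is the only joining whose image in the product of the
Kronecker factors is the product measure. -/
def QuasiDisjoint (S T : GSystem.{u, v} G) : Prop :=
  ∀ ρ : Measure (S.X × T.X), IsJoining G S.μ T.μ ρ →
    ρ.map (Prod.map (toKron S) (toKron T)) = (S.μ.map (toKron S)).prod (T.μ.map (toKron T)) →
    ρ = S.μ.prod T.μ

end Final

end

end Pool.Agent.Helper81.QuasiDisj
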